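import Mathlib

/-!
# Chains with three rows (MP_733c86_co): the algebra

`rel τ δ f k h` is the third order relation of the squares `|z_t|^2` along a linear recurrence
`Δ_(t+2) = τ Δ_(t+1) - δ Δ_t`, `f = |Δ_0|^2`, `k = ⟨Δ_0, Δ_1⟩`, `h = |Δ_1|^2`.
-/

set_option autoImplicit false

open scoped ComplexConjugate

namespace Pool.Agent.Vpd

/-- The relation. -/
def rel (τ δ f k h : ℝ) : ℝ :=
  δ * (1 - δ + τ * (1 + τ) * δ) * f + 2 * δ * (1 + τ) * (δ + 1 - τ ^ 2) * k +
    (δ * (δ - 1) - 2 * δ * τ * (1 + τ) + τ * (1 + τ) * (τ ^ 2 - 1)) * h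

theorem rel_eq (τ δ a u v : ℝ) :
    ((a + u + v + (τ * v - δ * u) + (τ * (τ * v - δ * u) - δ * v)) ^ 2
      - 2 * (a + u + v + (τ * v - δ * u)) ^ 2 + (a + u + v) ^ 2)
    - τ * ((a + u + v + (τ * v - δ * u)) ^ 2 - 2 * (a + u + v) ^ 2 + (a + u) ^ 2)
    + δ * ((a + u + v) ^ 2 - 2 * (a + u) ^ 2 + a ^ 2) =
    rel τ δ (u ^ 2) (u * v) (v ^ 2) := by
  unfold rel; ring

/-- The real algebra. -/
theorem core {τ δ f k h : ℝ} (hf : 0 < f) (hG : k ^ 2 < f * h) (hδ : δ ≠ 0)
    (h0 : rel τ δ f k h = 0)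
    (h1 : rel τ δ h (τ * h - δ * k) (τ ^ 2 * h - 2 * τ * δ * k + δ ^ 2 * f) = 0)
    (h2 : rel τ δ (τ ^ 2 * h - 2 * τ * δ * k + δ ^ 2 * f)
      (τ * (τ ^ 2 * h - 2 * τ * δ * k + δ ^ 2 * f) - δ * (τ * h - δ * k))
      (τ ^ 2 * (τ ^ 2 * h - 2 * τ * δ * k + δ ^ 2 * f) - 2 * τ * δ * (τ * h - δ * k)
        + δ ^ 2 * h) = 0) :
    (τ = -1 ∧ δ = 1) ∨ (τ = 0 ∧ δ = 1) ∨ (δ = 1 ∧ h = f ∧ 2 * k = τ * f) ∨
      (τ = 0 ∧ δ = -1) := by
  have hh : 0 < h := by
    by_contra hc
    push Not at hc
    nlinarith [sq_nonneg k, mul_nonneg hf.le (neg_nonneg.2 hc)]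
  have hkey : δ ^ 2 * (δ - 1) ^ 2 * (h + δ * f - τ * k) = 0 := by
    unfold rel at h0 h1 h2
    linear_combination (1 / 2 : ℝ) * (h2 - (τ ^ 2 - 2 * δ) * h1 + δ ^ 2 * h0)
  rcases lt_or_ge (τ ^ 2) (4 * δ) with hdisc | hdisc
  · -- complex eigenvalues
    have hpos : 0 < h + δ * f - τ * k := by
      have : 0 < f * (h + δ * f - τ * k) := by
        nlinarith [sq_nonneg (k - τ * f / 2), mul_pos hf hf]
      exact (mul_pos_iff_of_pos_left hf).1 this
    have hδ1 : δ = 1 := by
      have : (δ - 1) ^ 2 = 0 := by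
        rcases mul_eq_zero.1 hkey with h | h
        · rcases mul_eq_zero.1 h with h | h
          · exact absurd (pow_eq_zero_iff (two_ne_zero)|>.1 h) hδ
          · exact h
        · exact absurd h hpos.ne'
      have := pow_eq_zero_iff (two_ne_zero)|>.1 this
      linarith
    subst hδ1
    by_cases hτ1 : τ = -1
    · exact Or.inl ⟨hτ1, rfl⟩
    by_cases hτ0 : τ = 0
    · exact Or.inr (Or.inl ⟨hτ0, rfl⟩)
    have hne1 : 1 + τ ≠ 0 := fun h => hτ1 (by linarith)
    have e0 : τ * f + 2 * (2 - τ ^ 2) * k + τ * (τ ^ 2 - 3) * h = 0 := by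
      have : (1 + τ) * (τ * f + 2 * (2 - τ ^ 2) * k + τ * (τ ^ 2 - 3) * h) = 0 := by
        unfold rel at h0; linear_combination h0
      exact (mul_eq_zero.1 this).resolve_left hne1
    have e1 : τ * h + 2 * (2 - τ ^ 2) * (τ * h - k) +
        τ * (τ ^ 2 - 3) * (τ ^ 2 * h - 2 * τ * k + f) = 0 := by
      have : (1 + τ) * (τ * h + 2 * (2 - τ ^ 2) * (τ * h - k) +
        τ * (τ ^ 2 - 3) * (τ ^ 2 * h - 2 * τ * k + f)) = 0 := by
        unfold rel at h1; linear_combination h1
      exact (mul_eq_zero.1 this).resolve_left hne1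
    right; right; left
    have ht4 : 4 - τ ^ 2 ≠ 0 := by nlinarith
    -- with f = h + x, k = τ h / 2 + y
    have key : (4 - τ ^ 2) * (2 * k - τ * h) = 0 := by
      linear_combination (1 : ℝ) * e0 * (3 - τ ^ 2) + e1
    have hk : 2 * k = τ * h := by
      have := (mul_eq_zero.1 key).resolve_left ht4
      linarith
    have hfh : f = h := by
      have : τ * (f - h) = 0 := by
        linear_combination e0 - (2 - τ ^ 2) * hk
      have := (mul_eq_zero.1 this).resolve_left hτ0
      linarith
    exact ⟨rfl, hfh.symm, by rw [hfh]; exact hk⟩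
  · -- real eigenvalues
    obtain ⟨l, m, hlm, hlm'⟩ : ∃ l m : ℝ, l + m = τ ∧ l * m = δ := by
      refine ⟨(τ + Real.sqrt (τ ^ 2 - 4 * δ)) / 2, (τ - Real.sqrt (τ ^ 2 - 4 * δ)) / 2, by ring, ?_⟩
      have := Real.sq_sqrt (show 0 ≤ τ ^ 2 - 4 * δ by linarith)
      linear_combination (-1 / 4 : ℝ) * this
    subst hlm; subst hlm'
    have hl : l ≠ 0 := fun h => hδ (by rw [h, zero_mul])
    have hm : m ≠ 0 := fun h => hδ (by rw [h, mul_zero])
    have posform : ∀ c : ℝ, 0 < h - 2 * c * k + c ^ 2 * f := by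
      intro c
      have : 0 < f * (h - 2 * c * k + c ^ 2 * f) := by
        nlinarith [sq_nonneg (k - c * f)]
      exact (mul_pos_iff_of_pos_left hf).1 this
    have k1 : (h - 2 * m * k + m ^ 2 * f) * ((l ^ 2 - 1) * l ^ 2 * (l + 1) * (l ^ 2 - m) * (l + m))
        = 0 := by
      unfold rel at h0 h1 h2
      linear_combination h2 - (l * m + m ^ 2) * h1 + (l * m) * m ^ 2 * h0
    have k2 : (h - 2 * l * k + l ^ 2 * f) * ((m ^ 2 - 1) * m ^ 2 * (m + 1) * (m ^ 2 - l) * (l + m))
        = 0 := by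
      unfold rel at h0 h1 h2
      linear_combination h2 - (l * m + l ^ 2) * h1 + (l * m) * l ^ 2 * h0
    have k1' := (mul_eq_zero.1 k1).resolve_left (posform m).ne'
    have k2' := (mul_eq_zero.1 k2).resolve_left (posform l).ne'
    by_cases hs : l + m = 0
    · have hm' : m = -l := by linarith
      subst hm'
      have hG' : h - l ^ 2 * f = 0 := by
        have hne : (l * -l) ^ 2 * (l * -l - 1) ^ 2 ≠ 0 := by
          apply mul_ne_zero
          · exact pow_ne_zero _ hδ
          · apply pow_ne_zero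
            nlinarith [sq_nonneg l]
        have := (mul_eq_zero.1 hkey).resolve_left hne
        linear_combination this
      have hh' : h = l ^ 2 * f := by linarith
      by_cases hl1 : l ^ 2 = 1
      · right; right; right
        exact ⟨by ring, by linear_combination -hl1⟩
      · exfalso
        have : (l ^ 2) * (1 - l ^ 2) * ((1 + l ^ 2) * f + 2 * k) = 0 := by
          unfold rel at h0
          rw [hh'] at h0
          linear_combination -h0
        have h3 : (1 + l ^ 2) * f + 2 * k = 0 := by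
          refine (mul_eq_zero.1 this).resolve_left (mul_ne_zero (pow_ne_zero _ hl) ?_)
          intro h; exact hl1 (by linarith)
        have h4 : 2 * k = - ((1 + l ^ 2) * f) := by linarith
        have h5 : 4 * k ^ 2 = (1 + l ^ 2) ^ 2 * f ^ 2 := by
          have : (2 * k) ^ 2 = ((1 + l ^ 2) * f) ^ 2 := by rw [h4]; ring
          linear_combination this
        rw [hh'] at hG
        nlinarith [sq_nonneg ((1 - l ^ 2) * f)]
    · have k3 : l = 1 ∨ l = -1 ∨ l ^ 2 = m := by
        have : (l ^ 2 - 1) * (l + 1) * (l ^ 2 - m) = 0 := by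
          have h3 : (l ^ 2 * (l + m)) * ((l ^ 2 - 1) * (l + 1) * (l ^ 2 - m)) = 0 := by
            linear_combination k1'
          exact (mul_eq_zero.1 h3).resolve_left (mul_ne_zero (pow_ne_zero _ hl) hs)
        rcases mul_eq_zero.1 this with h | h
        · rcases mul_eq_zero.1 h with h | h
          · have : (l - 1) * (l + 1) = 0 := by linear_combination h
            rcases mul_eq_zero.1 this with h | h
            · left; linarith
            · right; left; linarith
          · right; left; linarith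
        · right; right; linarith
      have k4 : m = 1 ∨ m = -1 ∨ m ^ 2 = l := by
        have : (m ^ 2 - 1) * (m + 1) * (m ^ 2 - l) = 0 := by
          have h3 : (m ^ 2 * (l + m)) * ((m ^ 2 - 1) * (m + 1) * (m ^ 2 - l)) = 0 := by
            linear_combination k2'
          exact (mul_eq_zero.1 h3).resolve_left (mul_ne_zero (pow_ne_zero _ hm) hs)
        rcases mul_eq_zero.1 this with h | h
        · rcases mul_eq_zero.1 h with h | h
          · have : (m - 1) * (m + 1) = 0 := by linear_combination h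
            rcases mul_eq_zero.1 this with h | h
            · left; linarith
            · right; left; linarith
          · right; left; linarith
        · right; right; linarith
      have hcase : (l = 1 ∧ m = 1) ∨ (l = -1 ∧ m = -1) := by
        rcases k3 with h3 | h3 | h3
        · subst h3
          rcases k4 with h4 | h4 | h4
          · exact Or.inl ⟨rfl, h4⟩
          · exfalso; apply hs; rw [h4]; norm_num
          · have : (m - 1) * (m + 1) = 0 := by linear_combination h4
            rcases mul_eq_zero.1 this with h | h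
            · exact Or.inl ⟨rfl, by linarith⟩
            · exfalso; apply hs; linarith
        · subst h3
          rcases k4 with h4 | h4 | h4
          · exfalso; apply hs; rw [h4]; norm_num
          · exact Or.inr ⟨rfl, h4⟩
          · exfalso; nlinarith [sq_nonneg m]
        · rcases k4 with h4 | h4 | h4
          · rw [h4] at h3
            have : (l - 1) * (l + 1) = 0 := by linear_combination h3
            rcases mul_eq_zero.1 this with h | h
            · exact Or.inl ⟨by linarith, h4⟩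
            · exfalso; apply hs; linarith
          · exfalso; nlinarith [sq_nonneg l]
          · rw [← h3] at h4
            have h5 : l * (l ^ 3 - 1) = 0 := by linear_combination h4
            have h6 := (mul_eq_zero.1 h5).resolve_left hl
            have h7 : (l - 1) * (l ^ 2 + l + 1) = 0 := by linear_combination h6
            have h8 : l ^ 2 + l + 1 ≠ 0 := by nlinarith [sq_nonneg (l + 1 / 2)]
            have h9 := (mul_eq_zero.1 h7).resolve_right h8
            have h10 : l = 1 := by linarith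
            exact Or.inl ⟨h10, by rw [← h3, h10]; norm_num⟩
      exfalso
      rcases hcase with ⟨rfl, rfl⟩ | ⟨rfl, rfl⟩
      · have := posform 1
        unfold rel at h0
        linarith
      · have := posform (-1)
        unfold rel at h0
        linarith

/-- Two independent vectors `q2`, `q3` separate points. -/
theorem eq_zero_of_pair {q r d : ℂ} (h : (q * conj r).im ≠ 0) (h1 : q.re * d.re + q.im * d.im = 0)
    (h2 : r.re * d.re + r.im * d.im = 0) : d = 0 := by
  have hD : q.im * r.re - q.re * r.im ≠ 0 := by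
    intro h0; apply h
    simp only [Complex.mul_im, Complex.conj_re, Complex.conj_im]
    linarith
  have e1 : (q.im * r.re - q.re * r.im) * d.re = 0 := by linear_combination q.im * h2 - r.im * h1
  have e2 : (q.im * r.re - q.re * r.im) * d.im = 0 := by linear_combination r.re * h1 - q.re * h2
  apply Complex.ext
  · simpa using (mul_eq_zero.1 e1).resolve_left hD
  · simpa using (mul_eq_zero.1 e2).resolve_left hD

theorem dist_eq_sq {p z p' z' : ℂ} (h : dist p z = dist p' z') :
    (p.re - z.re) ^ 2 + (p.im - z.im) ^ 2 = (p'.re - z'.re) ^ 2 + (p'.im - z'.im) ^ 2 := by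
  have h1 : dist p z ^ 2 = dist p' z' ^ 2 := by rw [h]
  rw [Complex.dist_eq, Complex.dist_eq, ← Complex.normSq_eq_norm_sq, ← Complex.normSq_eq_norm_sq,
    Complex.normSq_apply, Complex.normSq_apply] at h1
  simp only [Complex.sub_re, Complex.sub_im] at h1
  linear_combination h1

/-- Three pairs of points seeing the chain `z_0, ..., z_6` with a shift: impossible in general
position. -/
theorem chain_contra {p p' : Fin 3 → ℂ} {z : ℕ → ℂ}
    (hp' : ((p' 1 - p' 0) * conj (p' 2 - p' 0)).im ≠ 0)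
    (hcol : ∀ i ≤ 6, ∀ j ≤ 6, ∀ k ≤ 6, i < j → j < k → ((z j - z i) * conj (z k - z i)).im ≠ 0)
    (h03 : z 0 ≠ z 3) (h04 : z 0 ≠ z 4)
    (hcirc : ¬ ∃ w : ℂ, ∃ r : ℝ, dist (z 0) w = r ∧ dist (z 1) w = r ∧ dist (z 2) w = r ∧
      dist (z 3) w = r)
    (hd : ∀ a, ∀ t < 6, dist (p a) (z t) = dist (p' a) (z (t + 1))) : False := by
  -- the equations
  have E : ∀ a, ∀ t < 6, _ := fun a t ht => dist_eq_sq (hd a t ht)
  have D : ∀ a, ∀ t < 5, ((z (t + 2)).re ^ 2 + (z (t + 2)).im ^ 2)
      - 2 * ((z (t + 1)).re ^ 2 + (z (t + 1)).im ^ 2) + ((z t).re ^ 2 + (z t).im ^ 2) =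
      2 * ((p' a).re * ((z (t + 2)).re - (z (t + 1)).re) +
        (p' a).im * ((z (t + 2)).im - (z (t + 1)).im)) -
      2 * ((p a).re * ((z (t + 1)).re - (z t).re) + (p a).im * ((z (t + 1)).im - (z t).im)) := by
    intro a t ht
    have e1 := E a t (by omega)
    have e2 := E a (t + 1) (by omega)
    linear_combination e1 - e2
  -- the recurrence
  have h012 := hcol 0 (by omega) 1 (by omega) 2 (by omega) (by omega) (by omega)
  obtain ⟨τ, δ, hrec0⟩ : ∃ τ δ : ℝ, z 3 - z 2 - (τ : ℂ) * (z 2 - z 1) + (δ : ℂ) * (z 1 - z 0) = 0 := by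
    set u := z 1 - z 0 with hu
    set v := z 2 - z 1 with hv
    set w := z 3 - z 2 with hw
    have hdet : u.im * v.re - u.re * v.im ≠ 0 := by
      intro h0
      apply h012
      have : z 2 - z 0 = u + v := by rw [hu, hv]; ring
      rw [this]
      simp only [Complex.mul_im, Complex.conj_re, Complex.conj_im, Complex.add_re, Complex.add_im]
      linarith
    refine ⟨(u.im * w.re - u.re * w.im) / (u.im * v.re - u.re * v.im),
      (v.im * w.re - v.re * w.im) / (u.im * v.re - u.re * v.im), ?_⟩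
    apply Complex.ext
    · simp only [Complex.sub_re, Complex.add_re, Complex.re_ofReal_mul, Complex.zero_re]
      field_simp
      ring
    · simp only [Complex.sub_im, Complex.add_im, Complex.im_ofReal_mul, Complex.zero_im]
      field_simp
      ring
  have hrec : ∀ t < 4, z (t + 3) - z (t + 2) - (τ : ℂ) * (z (t + 2) - z (t + 1)) +
      (δ : ℂ) * (z (t + 1) - z t) = 0 := by
    intro t
    induction t with
    | zero => intro _; exact hrec0
    | succ t ih =>
      intro ht
      have ih' := ih (by omega)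
      have ihre := congrArg Complex.re ih'
      have ihim := congrArg Complex.im ih'
      simp only [Complex.sub_re, Complex.add_re, Complex.re_ofReal_mul, Complex.zero_re] at ihre
      simp only [Complex.sub_im, Complex.add_im, Complex.im_ofReal_mul, Complex.zero_im] at ihim
      have d0 : ∀ a, _ := fun a => D a t (by omega)
      have d1 : ∀ a, _ := fun a => D a (t + 1) (by omega)
      have d2 : ∀ a, _ := fun a => D a (t + 2) (by omega)
      refine eq_zero_of_pair hp' ?_ ?_
      · simp only [Complex.sub_re, Complex.add_re, Complex.re_ofReal_mul, Complex.sub_im,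
          Complex.add_im, Complex.im_ofReal_mul]
        linear_combination (1 / 2 : ℝ) * (d2 0 - d2 1) - τ / 2 * (d1 0 - d1 1)
          + δ / 2 * (d0 0 - d0 1) + ((p 1).re - (p 0).re) * ihre + ((p 1).im - (p 0).im) * ihim
      · simp only [Complex.sub_re, Complex.add_re, Complex.re_ofReal_mul, Complex.sub_im,
          Complex.add_im, Complex.im_ofReal_mul]
        linear_combination (1 / 2 : ℝ) * (d2 0 - d2 2) - τ / 2 * (d1 0 - d1 2)
          + δ / 2 * (d0 0 - d0 2) + ((p 2).re - (p 0).re) * ihre + ((p 2).im - (p 0).im) * ihim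
  have hre : ∀ t < 4, (z (t + 3)).re - (z (t + 2)).re - τ * ((z (t + 2)).re - (z (t + 1)).re) +
      δ * ((z (t + 1)).re - (z t).re) = 0 := by
    intro t ht
    have := congrArg Complex.re (hrec t ht)
    simpa only [Complex.sub_re, Complex.add_re, Complex.re_ofReal_mul, Complex.zero_re] using this
  have him : ∀ t < 4, (z (t + 3)).im - (z (t + 2)).im - τ * ((z (t + 2)).im - (z (t + 1)).im) +
      δ * ((z (t + 1)).im - (z t).im) = 0 := by
    intro t ht
    have := congrArg Complex.im (hrec t ht)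
    simpa only [Complex.sub_im, Complex.add_im, Complex.im_ofReal_mul, Complex.zero_im] using this
  -- the relations
  have hrel : ∀ t < 3, rel τ δ
      (((z (t + 1)).re - (z t).re) ^ 2 + ((z (t + 1)).im - (z t).im) ^ 2)
      (((z (t + 1)).re - (z t).re) * ((z (t + 2)).re - (z (t + 1)).re) +
        ((z (t + 1)).im - (z t).im) * ((z (t + 2)).im - (z (t + 1)).im))
      (((z (t + 2)).re - (z (t + 1)).re) ^ 2 + ((z (t + 2)).im - (z (t + 1)).im) ^ 2) = 0 := by
    intro t ht
    have d0 := D 0 t (by omega)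
    have d1 := D 0 (t + 1) (by omega)
    have d2 := D 0 (t + 2) (by omega)
    have r0 := hre t (by omega)
    have r1 := hre (t + 1) (by omega)
    have i0 := him t (by omega)
    have i1 := him (t + 1) (by omega)
    have X := rel_eq τ δ (z t).re ((z (t + 1)).re - (z t).re) ((z (t + 2)).re - (z (t + 1)).re)
    have Y := rel_eq τ δ (z t).im ((z (t + 1)).im - (z t).im) ((z (t + 2)).im - (z (t + 1)).im)
    have x2 : (z t).re + ((z (t + 1)).re - (z t).re) + ((z (t + 2)).re - (z (t + 1)).re)
      = (z (t + 2)).re := by ring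
    have y2 : (z t).im + ((z (t + 1)).im - (z t).im) + ((z (t + 2)).im - (z (t + 1)).im)
      = (z (t + 2)).im := by ring
    have x1 : (z t).re + ((z (t + 1)).re - (z t).re) = (z (t + 1)).re := by ring
    have y1 : (z t).im + ((z (t + 1)).im - (z t).im) = (z (t + 1)).im := by ring
    have x3 : τ * ((z (t + 2)).re - (z (t + 1)).re) - δ * ((z (t + 1)).re - (z t).re)
      = (z (t + 3)).re - (z (t + 2)).re := by linarith
    have y3 : τ * ((z (t + 2)).im - (z (t + 1)).im) - δ * ((z (t + 1)).im - (z t).im)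
      = (z (t + 3)).im - (z (t + 2)).im := by linarith
    have x4 : τ * ((z (t + 3)).re - (z (t + 2)).re) - δ * ((z (t + 2)).re - (z (t + 1)).re)
      = (z (t + 4)).re - (z (t + 3)).re := by
      have : (z (t + 1 + 3)).re = (z (t + 4)).re := rfl
      linarith
    have y4 : τ * ((z (t + 3)).im - (z (t + 2)).im) - δ * ((z (t + 2)).im - (z (t + 1)).im)
      = (z (t + 4)).im - (z (t + 3)).im := by
      have : (z (t + 1 + 3)).im = (z (t + 4)).im := rfl
      linarith
    rw [x2, x1, x3, x4] at X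
    rw [y2, y1, y3, y4] at Y
    have lin : ∀ f k h f' k' h' : ℝ, rel τ δ (f + f') (k + k') (h + h') =
        rel τ δ f k h + rel τ δ f' k' h' := by
      intro f k h f' k' h'; unfold rel; ring
    rw [lin, ← X, ← Y]
    have e23 : (z (t + 1 + 2)) = z (t + 3) := rfl
    have e22 : (z (t + 1 + 1)) = z (t + 2) := rfl
    have e24 : (z (t + 2 + 2)) = z (t + 4) := rfl
    have e21 : (z (t + 2 + 1)) = z (t + 3) := rfl
    rw [e23, e22] at d1
    rw [e24, e21] at d2
    linear_combination d2 - τ * d1 + δ * d0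
      + (2 * (p' 0).re) * (r1) + (2 * (p' 0).im) * (i1)
      - (2 * (p 0).re) * (r0) - (2 * (p 0).im) * (i0)
  have R0 := hrel 0 (by norm_num)
  have R1 := hrel 1 (by norm_num)
  have R2 := hrel 2 (by norm_num)
  simp only [Nat.zero_add, show (1 : ℕ) + 1 = 2 from rfl, show (1 : ℕ) + 2 = 3 from rfl,
    show (2 : ℕ) + 2 = 4 from rfl] at R0 R1 R2
  have a0 := hre 0 (by norm_num)
  have b0 := him 0 (by norm_num)
  have a1 := hre 1 (by norm_num)
  have b1 := him 1 (by norm_num)
  simp only [Nat.zero_add, show (1 : ℕ) + 1 = 2 from rfl, show (1 : ℕ) + 2 = 3 from rfl,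
    show (1 : ℕ) + 3 = 4 from rfl] at a0 b0 a1 b1
  have x3 : (z 3).re - (z 2).re = τ * ((z 2).re - (z 1).re) - δ * ((z 1).re - (z 0).re) := by
    linarith
  have y3 : (z 3).im - (z 2).im = τ * ((z 2).im - (z 1).im) - δ * ((z 1).im - (z 0).im) := by
    linarith
  have x4 : (z 4).re - (z 3).re = τ * ((z 3).re - (z 2).re) - δ * ((z 2).re - (z 1).re) := by
    linarith
  have y4 : (z 4).im - (z 3).im = τ * ((z 3).im - (z 2).im) - δ * ((z 2).im - (z 1).im) := by
    linarith
  set u1 := (z 1).re - (z 0).re with hu1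
  set u2 := (z 1).im - (z 0).im with hu2
  set v1 := (z 2).re - (z 1).re with hv1
  set v2 := (z 2).im - (z 1).im with hv2
  have hdet : u2 * v1 - u1 * v2 ≠ 0 := by
    intro h0
    apply h012
    simp only [Complex.mul_im, Complex.conj_re, Complex.conj_im, Complex.sub_re, Complex.sub_im]
    rw [hu1, hu2, hv1, hv2] at h0
    linear_combination h0
  have h123 := hcol 1 (by omega) 2 (by omega) 3 (by omega) (by omega) (by omega)
  have hδ : δ ≠ 0 := by
    intro h0
    apply h123
    rw [h0] at x3 y3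
    simp only [Complex.mul_im, Complex.conj_re, Complex.conj_im, Complex.sub_re, Complex.sub_im]
    have e1 : (z 3).re - (z 1).re = (τ + 1) * v1 := by rw [hv1] at x3 ⊢; linear_combination x3
    have e2 : (z 3).im - (z 1).im = (τ + 1) * v2 := by rw [hv2] at y3 ⊢; linear_combination y3
    rw [e1, e2, ← hv1, ← hv2]; ring
  have hf : 0 < u1 ^ 2 + u2 ^ 2 := by
    by_contra hc
    push Not at hc
    have h1 : u1 = 0 := by nlinarith [sq_nonneg u1, sq_nonneg u2]
    have h2 : u2 = 0 := by nlinarith [sq_nonneg u1, sq_nonneg u2]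
    apply hdet; rw [h1, h2]; ring
  have hG : (u1 * v1 + u2 * v2) ^ 2 < (u1 ^ 2 + u2 ^ 2) * (v1 ^ 2 + v2 ^ 2) := by
    have : 0 < (u2 * v1 - u1 * v2) ^ 2 := by positivity
    nlinarith
  have R1' : rel τ δ (v1 ^ 2 + v2 ^ 2)
      (τ * (v1 ^ 2 + v2 ^ 2) - δ * (u1 * v1 + u2 * v2))
      (τ ^ 2 * (v1 ^ 2 + v2 ^ 2) - 2 * τ * δ * (u1 * v1 + u2 * v2) + δ ^ 2 * (u1 ^ 2 + u2 ^ 2))
      = 0 := by
    rw [x3, y3] at R1
    convert R1 using 2 <;> ring
  have R2' : rel τ δ
      (τ ^ 2 * (v1 ^ 2 + v2 ^ 2) - 2 * τ * δ * (u1 * v1 + u2 * v2) + δ ^ 2 * (u1 ^ 2 + u2 ^ 2))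
      (τ * (τ ^ 2 * (v1 ^ 2 + v2 ^ 2) - 2 * τ * δ * (u1 * v1 + u2 * v2) + δ ^ 2 * (u1 ^ 2 + u2 ^ 2))
        - δ * (τ * (v1 ^ 2 + v2 ^ 2) - δ * (u1 * v1 + u2 * v2)))
      (τ ^ 2 * (τ ^ 2 * (v1 ^ 2 + v2 ^ 2) - 2 * τ * δ * (u1 * v1 + u2 * v2) +
        δ ^ 2 * (u1 ^ 2 + u2 ^ 2)) - 2 * τ * δ * (τ * (v1 ^ 2 + v2 ^ 2) - δ * (u1 * v1 + u2 * v2))
        + δ ^ 2 * (v1 ^ 2 + v2 ^ 2)) = 0 := by
    rw [x4, y4, x3, y3] at R2
    convert R2 using 2 <;> ring
  rcases core hf hG hδ R0 R1' R2' with ⟨h1, h2⟩ | ⟨h1, h2⟩ | ⟨h1, h2, h3⟩ | ⟨h1, h2⟩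
  · apply h03
    apply Complex.ext
    · rw [h1, h2] at x3
      linarith
    · rw [h1, h2] at y3
      linarith
  · apply h04
    apply Complex.ext
    · rw [h1, h2] at x3 x4
      linarith
    · rw [h1, h2] at y3 y4
      linarith
  · -- rotation: the centre is `c`
    apply hcirc
    subst h1
    -- centre: z0 + (u/2) + s * i u, determined by det
    set D := u1 * v2 - u2 * v1 with hD
    have hDne : D ≠ 0 := by
      intro h0; apply hdet; rw [hD] at h0; linarith
    set s := ((u1 ^ 2 + u2 ^ 2) + (u1 * v1 + u2 * v2)) / (2 * D) with hs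
    have hs' : 2 * D * s = (u1 ^ 2 + u2 ^ 2) + (u1 * v1 + u2 * v2) := by
      rw [hs]; field_simp
    have key : ∀ a b : ℂ, ∀ w : ℂ, ((a.re - w.re) ^ 2 + (a.im - w.im) ^ 2 =
        (b.re - w.re) ^ 2 + (b.im - w.im) ^ 2) → dist a w = dist b w := by
      intro a b w hab
      have : dist a w ^ 2 = dist b w ^ 2 := by
        rw [Complex.dist_eq, Complex.dist_eq, ← Complex.normSq_eq_norm_sq,
          ← Complex.normSq_eq_norm_sq, Complex.normSq_apply, Complex.normSq_apply]
        simp only [Complex.sub_re, Complex.sub_im]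
        linear_combination hab
      have h5 := (sq_eq_sq₀ dist_nonneg dist_nonneg).1 this
      exact h5
    -- |v|^2 = |u|^2 =: f, 2 <u,v> = τ f, D^2 = f^2 - <u,v>^2
    have hDsq : D ^ 2 = (u1 ^ 2 + u2 ^ 2) * (v1 ^ 2 + v2 ^ 2) - (u1 * v1 + u2 * v2) ^ 2 := by
      rw [hD]; ring
    refine ⟨⟨(z 0).re + u1 / 2 - s * u2, (z 0).im + u2 / 2 + s * u1⟩, _, rfl, ?_, ?_, ?_⟩
    · refine key _ _ _ ?_
      have e1 : (z 1).re = (z 0).re + u1 := by rw [hu1]; ring
      have e2 : (z 1).im = (z 0).im + u2 := by rw [hu2]; ring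
      rw [e1, e2]
      simp only []
      ring
    · refine key _ _ _ ?_
      have e1 : (z 2).re = (z 0).re + u1 + v1 := by rw [hu1, hv1]; ring
      have e2 : (z 2).im = (z 0).im + u2 + v2 := by rw [hu2, hv2]; ring
      rw [e1, e2]
      simp only []
      rw [hD] at hs'
      linear_combination h2 + (-1 : ℝ) * hs'
    · refine key _ _ _ ?_
      have e1 : (z 3).re = (z 0).re + u1 + v1 + (τ * v1 - 1 * u1) := by
        rw [← x3, hu1, hv1]; ring
      have e2 : (z 3).im = (z 0).im + u2 + v2 + (τ * v2 - 1 * u2) := by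
        rw [← y3, hu2, hv2]; ring
      rw [e1, e2]
      simp only []
      rw [hD] at hs'
      linear_combination (1 + τ) ^ 2 * h2 - (1 + τ) * hs' - (1 + τ) * h3
  · have h024 := hcol 0 (by omega) 2 (by omega) 4 (by omega) (by omega) (by omega)
    apply h024
    rw [h1, h2] at x3 y3 x4 y4
    have e1 : (z 4).re - (z 0).re = 2 * ((z 2).re - (z 0).re) := by
      rw [hu1] at x3; rw [hv1] at x4; linarith
    have e2 : (z 4).im - (z 0).im = 2 * ((z 2).im - (z 0).im) := by
      rw [hu2] at y3; rw [hv2] at y4; linarith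
    simp only [Complex.mul_im, Complex.conj_re, Complex.conj_im, Complex.sub_re, Complex.sub_im]
    rw [e1, e2]; ring

end Pool.Agent.Vpd
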