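import Mathlib

/-!
# Pigeonhole on a grid for points near the unit circle (MP_733c86_co)
-/

set_option autoImplicit false

open Finset

namespace Pool.Agent.Vpd

/-- Two complex numbers in the same cell of the grid of mesh `1 / 200` are close. -/
private theorem norm_sub_le_of_floor_eq {y s : ℂ} (hr : ⌊200 * y.re⌋ = ⌊200 * s.re⌋)
    (hi : ⌊200 * y.im⌋ = ⌊200 * s.im⌋) : ‖y - s‖ ≤ 8 / 1000 := by
  have h1 : |200 * y.re - 200 * s.re| < 1 := Int.abs_sub_lt_one_of_floor_eq_floor hr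
  have h2 : |200 * y.im - 200 * s.im| < 1 := Int.abs_sub_lt_one_of_floor_eq_floor hi
  rw [abs_lt] at h1 h2
  have h3 : ‖y - s‖ ^ 2 ≤ (8 / 1000) ^ 2 := by
    rw [← Complex.normSq_eq_norm_sq, Complex.normSq_apply, Complex.sub_re, Complex.sub_im]
    nlinarith [h1.1, h1.2, h2.1, h2.2]
  exact le_of_sq_le_sq h3 (by norm_num)

theorem exists_arc {S : Finset ℂ} (hS : ∀ y ∈ S, |‖y‖ - 1| ≤ 1 / 1000) :
    ∃ u : ℂ, ‖u‖ = 1 ∧ (S.card : ℝ) / 170000 ≤ ((S.filter fun y => dist y u ≤ 1 / 100).card : ℝ) := by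
  classical
  rcases S.eq_empty_or_nonempty with rfl | hne
  · exact ⟨1, by simp, by simp⟩
  have hcard : (0 : ℝ) < S.card := by exact_mod_cast hne.card_pos
  obtain ⟨I, hIc⟩ : ∃ I : Finset ℤ, I = Finset.Icc (-201 : ℤ) 200 := ⟨_, rfl⟩
  have hI : I.card = 402 := by rw [hIc, Int.card_Icc]; rfl
  have hb : ∀ x : ℝ, |x| ≤ 1001 / 1000 → ⌊200 * x⌋ ∈ I := by
    intro x hx
    rw [abs_le] at hx
    rw [hIc, Finset.mem_Icc]
    constructor
    · rw [Int.le_floor]; push_cast; linarith [hx.1]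
    · have : ⌊200 * x⌋ < (201 : ℤ) := by rw [Int.floor_lt]; push_cast; linarith [hx.2]
      omega
  obtain ⟨f, hf⟩ : ∃ f : ℂ → ℤ × ℤ, ∀ y, f y = (⌊200 * y.re⌋, ⌊200 * y.im⌋) := ⟨_, fun _ => rfl⟩
  have hmaps : ∀ y ∈ S, f y ∈ I ×ˢ I := by
    intro y hy
    rw [hf]
    have h1 := hS y hy
    rw [abs_le] at h1
    have h2 : ‖y‖ ≤ 1001 / 1000 := by linarith [h1.2]
    exact Finset.mem_product.2 ⟨hb _ ((Complex.abs_re_le_norm y).trans h2),
      hb _ ((Complex.abs_im_le_norm y).trans h2)⟩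
  have htc : (I ×ˢ I).card = 161604 := by rw [Finset.card_product, hI]
  have htne : (I ×ˢ I).Nonempty := by
    rw [← Finset.card_pos, htc]; norm_num
  obtain ⟨c, hc, hcb⟩ := Finset.exists_le_card_fiber_of_nsmul_le_card_of_maps_to
    (f := f) (b := (S.card : ℝ) / 170000) hmaps htne
    (by rw [htc, nsmul_eq_mul]; push_cast; linarith)
  have hpos : 0 < (S.filter fun y : ℂ => f y = c).card := by
    have : (0 : ℝ) < ((S.filter fun y : ℂ => f y = c).card : ℝ) :=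
      lt_of_lt_of_le (div_pos hcard (by norm_num)) hcb
    exact_mod_cast this
  obtain ⟨s, hs⟩ := Finset.card_pos.1 hpos
  rw [Finset.mem_filter] at hs
  have hsn := hS s hs.1
  rw [abs_le] at hsn
  have hs0 : ‖s‖ ≠ 0 := by
    intro h; rw [h] at hsn; linarith [hsn.1]
  refine ⟨s / (‖s‖ : ℂ), ?_, hcb.trans ?_⟩
  · rw [norm_div, Complex.norm_real, norm_norm, div_self hs0]
  · have hsu : ‖s - s / (‖s‖ : ℂ)‖ ≤ 1 / 1000 := by
      have e1 : s - s / (‖s‖ : ℂ) = (s / (‖s‖ : ℂ)) * ((‖s‖ - 1 : ℝ) : ℂ) := by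
        have : (‖s‖ : ℂ) ≠ 0 := by exact_mod_cast hs0
        push_cast
        field_simp
      rw [e1, norm_mul, norm_div, Complex.norm_real, norm_norm, div_self hs0, one_mul,
        Complex.norm_real, Real.norm_eq_abs]
      exact hS s hs.1
    have hsub : (S.filter fun y : ℂ => f y = c) ⊆
        S.filter fun y => dist y (s / (‖s‖ : ℂ)) ≤ 1 / 100 := by
      intro y hy
      rw [Finset.mem_filter] at hy ⊢
      refine ⟨hy.1, ?_⟩
      have h3 := hy.2.trans hs.2.symm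
      rw [hf, hf, Prod.mk.injEq] at h3
      have h4 := norm_sub_le_of_floor_eq h3.1 h3.2
      rw [dist_eq_norm]
      calc ‖y - s / (‖s‖ : ℂ)‖ = ‖(y - s) + (s - s / (‖s‖ : ℂ))‖ := by ring_nf
        _ ≤ ‖y - s‖ + ‖s - s / (‖s‖ : ℂ)‖ := norm_add_le _ _
        _ ≤ 8 / 1000 + 1 / 1000 := add_le_add h4 hsu
        _ ≤ 1 / 100 := by norm_num
    exact_mod_cast Finset.card_le_card hsub

end Pool.Agent.Vpd
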