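import Pool.Agent.Lib.Vpd.Step

/-!
# A curve of nearly vertical steps from points in convex position (MP_733c86_co)
-/

set_option autoImplicit false

open Finset Pool.Agent.Vps
open scoped ComplexConjugate

namespace Pool.Agent.Vpd

/-- Two points of the annulus near `1`. -/
theorem curve_re_aux {T : ℝ} {p q : ℂ} (hp : |‖p‖ ^ 2 - 1| ≤ T) (hq : |‖q‖ ^ 2 - 1| ≤ T)
    (hp1 : dist p 1 ≤ 1 / 30) (hq1 : dist q 1 ≤ 1 / 30) :
    |q.re - p.re| * (19 / 10) ≤ 2 * T + |q.im - p.im| * (1 / 15) := by
  have bnd : ∀ z : ℂ, dist z 1 ≤ 1 / 30 → |z.re - 1| ≤ 1 / 30 ∧ |z.im| ≤ 1 / 30 := by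
    intro z hz
    rw [Complex.dist_eq] at hz
    have h1 := Complex.abs_re_le_norm (z - 1)
    have h2 := Complex.abs_im_le_norm (z - 1)
    simp only [Complex.sub_re, Complex.one_re, Complex.sub_im, Complex.one_im, sub_zero] at h1 h2
    exact ⟨h1.trans hz, h2.trans hz⟩
  obtain ⟨hp2, hp3⟩ := bnd p hp1
  obtain ⟨hq2, hq3⟩ := bnd q hq1
  have np : ‖p‖ ^ 2 = p.re * p.re + p.im * p.im := by
    rw [← Complex.normSq_eq_norm_sq, Complex.normSq_apply]
  have nq : ‖q‖ ^ 2 = q.re * q.re + q.im * q.im := by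
    rw [← Complex.normSq_eq_norm_sq, Complex.normSq_apply]
  rw [np] at hp
  rw [nq] at hq
  have key : (q.re - p.re) * (q.re + p.re) =
      ((q.re * q.re + q.im * q.im - 1) - (p.re * p.re + p.im * p.im - 1)) -
        (q.im - p.im) * (q.im + p.im) := by ring
  have h1 : |(q.re - p.re) * (q.re + p.re)| ≤ 2 * T + |q.im - p.im| * (1 / 15) := by
    rw [key]
    have h2 : |(q.im - p.im) * (q.im + p.im)| ≤ |q.im - p.im| * (1 / 15) := by
      rw [abs_mul]
      apply mul_le_mul_of_nonneg_left _ (abs_nonneg _)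
      have := abs_add_le q.im p.im
      linarith
    have h3 := abs_sub (q.re * q.re + q.im * q.im - 1) (p.re * p.re + p.im * p.im - 1)
    have h4 := abs_sub ((q.re * q.re + q.im * q.im - 1) - (p.re * p.re + p.im * p.im - 1))
      ((q.im - p.im) * (q.im + p.im))
    linarith
  rw [abs_mul] at h1
  have h5 : (19 / 10 : ℝ) ≤ |q.re + p.re| := by
    have := abs_le.1 hp2
    have := abs_le.1 hq2
    rw [abs_of_nonneg] <;> linarith
  have h6 : |q.re - p.re| * (19 / 10) ≤ |q.re - p.re| * |q.re + p.re| :=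
    mul_le_mul_of_nonneg_left h5 (abs_nonneg _)
  linarith

theorem curve_slope_aux {T : ℝ} {p q : ℂ} (hp : |‖p‖ ^ 2 - 1| ≤ T) (hq : |‖q‖ ^ 2 - 1| ≤ T)
    (hp1 : dist p 1 ≤ 1 / 30) (hq1 : dist q 1 ≤ 1 / 30) (h : 20 * T ≤ |q.im - p.im|) :
    |q.re - p.re| ≤ |q.im - p.im| / 10 := by
  have := curve_re_aux hp hq hp1 hq1
  have := abs_nonneg (q.im - p.im)
  linarith

theorem curve_near_aux {T : ℝ} {p q : ℂ} (hp : |‖p‖ ^ 2 - 1| ≤ T) (hq : |‖q‖ ^ 2 - 1| ≤ T)
    (hp1 : dist p 1 ≤ 1 / 30) (hq1 : dist q 1 ≤ 1 / 30) (h : |q.im - p.im| ≤ 20 * T) :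
    dist q p ≤ 30 * T := by
  have h1 := curve_re_aux hp hq hp1 hq1
  have h4 : 0 ≤ T := (abs_nonneg _).trans hp
  have h2 : |q.re - p.re| ≤ 2 * T := by
    linarith
  rw [Complex.dist_eq]
  have h3 := Complex.norm_le_abs_re_add_abs_im (q - p)
  simp only [Complex.sub_re, Complex.sub_im] at h3
  linarith

/-- `p` is in the triangle `a`, `b`, `q`. -/
theorem curve_conv_aux {C : Set ℂ} (hC : Convex ℝ C) {a b p q : ℂ} (ha : a ∈ C) (hb : b ∈ C)
    (hq : q ∈ C) {s : ℝ} (hap : |p.re - a.re| ≤ (p.im - a.im) / 10) (hapi : a.im < p.im)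
    (hbp : |b.re - p.re| ≤ (b.im - p.im) / 10) (hbpi : p.im < b.im)
    (hpq : |q.im - p.im| / 10 < s * (q.re - p.re)) (hs : s = 1 ∨ s = -1)
    (hab : 0 < s * ((b - a) * conj (p - a)).im) : p ∈ C := by
  have e1 : ((b - a) * conj (p - a)).im =
      (b.im - a.im) * (p.re - a.re) - (b.re - a.re) * (p.im - a.im) := by
    simp only [Complex.mul_im, Complex.conj_re, Complex.conj_im, Complex.sub_re, Complex.sub_im]
    ring
  rw [e1] at hab
  obtain ⟨hap1, hap2⟩ := abs_le.1 hap
  obtain ⟨hbp1, hbp2⟩ := abs_le.1 hbp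
  have hq1 : -(s * (q.re - p.re)) * 10 < q.im - p.im := by
    have := neg_abs_le (q.im - p.im)
    linarith
  have hq2 : q.im - p.im < s * (q.re - p.re) * 10 := by
    have := le_abs_self (q.im - p.im)
    linarith
  have hss : s * s = 1 := by
    rcases hs with rfl | rfl <;> norm_num
  have hsabs : ∀ x : ℝ, |s * x| = |x| := by
    intro x
    rcases hs with rfl | rfl <;> simp
  have hA : 0 < s * ((b.im - p.im) * (q.re - p.re) - (b.re - p.re) * (q.im - p.im)) := by
    have h1 : |(b.re - p.re) * (q.im - p.im)| ≤ (b.im - p.im) / 10 * |q.im - p.im| := by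
      rw [abs_mul]
      exact mul_le_mul_of_nonneg_right hbp (abs_nonneg _)
    have h2 : (b.im - p.im) / 10 * |q.im - p.im| < (b.im - p.im) * (s * (q.re - p.re)) := by
      have : (b.im - p.im) * (|q.im - p.im| / 10) < (b.im - p.im) * (s * (q.re - p.re)) :=
        mul_lt_mul_of_pos_left hpq (by linarith)
      linarith
    have h3 := le_abs_self (s * ((b.re - p.re) * (q.im - p.im)))
    rw [hsabs] at h3
    nlinarith
  have hB : 0 < s * ((q.re - p.re) * (p.im - a.im) - (q.im - p.im) * (p.re - a.re)) := by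
    have h1 : |(q.im - p.im) * (p.re - a.re)| ≤ |q.im - p.im| * ((p.im - a.im) / 10) := by
      rw [abs_mul]
      exact mul_le_mul_of_nonneg_left hap (abs_nonneg _)
    have h2 : |q.im - p.im| * ((p.im - a.im) / 10) < (p.im - a.im) * (s * (q.re - p.re)) := by
      have : (p.im - a.im) * (|q.im - p.im| / 10) < (p.im - a.im) * (s * (q.re - p.re)) :=
        mul_lt_mul_of_pos_left hpq (by linarith)
      linarith
    have h3 := le_abs_self (s * ((q.im - p.im) * (p.re - a.re)))
    rw [hsabs] at h3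
    nlinarith
  set A := s * ((b.im - p.im) * (q.re - p.re) - (b.re - p.re) * (q.im - p.im)) with hAd
  set B := s * ((q.re - p.re) * (p.im - a.im) - (q.im - p.im) * (p.re - a.re)) with hBd
  set D := s * ((b.im - a.im) * (p.re - a.re) - (b.re - a.re) * (p.im - a.im)) with hDd
  have hAB : 0 < A + B := by linarith
  have hABD : 0 < A + B + D := by linarith
  have hr : (A / (A + B)) • a + (B / (A + B)) • b ∈ C :=
    hC ha hb (by positivity) (by positivity) (by field_simp)
  have hp : ((A + B) / (A + B + D)) • ((A / (A + B)) • a + (B / (A + B)) • b) +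
      (D / (A + B + D)) • q ∈ C :=
    hC hr hq (by positivity) (by positivity) (by field_simp)
  convert hp using 1
  have e2 : ((A + B) / (A + B + D)) • ((A / (A + B)) • a + (B / (A + B)) • b) +
      (D / (A + B + D)) • q = (1 / (A + B + D)) • (A • a + B • b + D • q) := by
    rw [smul_add, smul_smul, smul_smul, smul_add, smul_add, smul_smul, smul_smul, smul_smul]
    congr 1
    · congr 1
      · congr 1
        field_simp
      · congr 1
        field_simp
    · congr 1
      field_simp
  have e3 : A • a + B • b + D • q = (A + B + D) • p := by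
    apply Complex.ext
    · simp only [Complex.add_re, Complex.smul_re, smul_eq_mul, hAd, hBd, hDd]
      ring
    · simp only [Complex.add_im, Complex.smul_im, smul_eq_mul, hAd, hBd, hDd]
      ring
  rw [e2, e3, smul_smul, one_div_mul_cancel hABD.ne', one_smul]

/-- Enumeration of a finite set with small slopes. -/
theorem curve_enum_aux {S2 : Finset ℂ} (hnear : ∀ y ∈ S2, dist y 1 ≤ 1 / 100)
    (hsl : ∀ y ∈ S2, ∀ z ∈ S2, |z.re - y.re| ≤ 93 / 100 * |z.im - y.im|) :
    ∃ p : ℕ → ℂ, (∀ k < S2.card, p k ∈ S2) ∧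
      ∀ j k, j < k → k < S2.card → Step (p j) (p k) := by
  classical
  have hinj : Set.InjOn (fun z : ℂ => z.im) (S2 : Set ℂ) := by
    intro y hy z hz hyz
    have h1 := hsl y hy z hz
    simp only at hyz
    rw [hyz, sub_self, abs_zero, mul_zero] at h1
    have h2 := abs_nonpos_iff.1 h1
    exact Complex.ext (by linarith) hyz
  have hcard : (S2.image fun z : ℂ => z.im).card = S2.card := Finset.card_image_of_injOn hinj
  let e := (S2.image fun z : ℂ => z.im).orderEmbOfFin hcard
  have hex : ∀ k : Fin S2.card, ∃ z ∈ S2, z.im = e k := by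
    intro k
    have := Finset.orderEmbOfFin_mem (S2.image fun z : ℂ => z.im) hcard k
    obtain ⟨z, hz, hz'⟩ := Finset.mem_image.1 this
    exact ⟨z, hz, hz'⟩
  choose f hf hf' using hex
  refine ⟨fun k => if hk : k < S2.card then f ⟨k, hk⟩ else 0, ?_, ?_⟩
  · intro k hk
    simp only [hk, dif_pos]
    exact hf _
  · intro j k hjk hk
    have hj : j < S2.card := hjk.trans hk
    simp only [hk, hj, dif_pos]
    have hlt : (f ⟨j, hj⟩).im < (f ⟨k, hk⟩).im := by
      rw [hf', hf']
      exact e.strictMono (by simpa using hjk)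
    refine ⟨?_, ?_, hlt, ?_⟩
    · have := hnear _ (hf ⟨j, hj⟩)
      linarith
    · have := hnear _ (hf ⟨k, hk⟩)
      linarith
    · have h1 := hsl _ (hf ⟨j, hj⟩) _ (hf ⟨k, hk⟩)
      rwa [abs_of_pos (sub_pos.2 hlt)] at h1

/-- `S` empty: `M = 0` (`K ≥ 0`). Let `a, b ∈ S` have least and largest imaginary part.
For `p ∈ S` with `p.im > a.im + 20 T`: `|p.re - a.re| ≤ (p.im - a.im) / 10`; same for `b`. The
`p ∈ S` with `p.im ≤ a.im + 20 T` are in `ball X a g`, those with `p.im ≥ b.im - 20 T` in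
`ball X b g`: at most `2 K` together. The others are not on the line `a b`: take the larger of the two
classes by the side; there the slopes are small, as otherwise a point is in a triangle of others. -/
theorem curve {X S : Finset ℂ} {e T : ℝ} (h : Ann X e T) (hT : T ≤ 1 / 10 ^ 4) {g K : ℝ}
    (hg : 30 * T ≤ g) (hK : ∀ y ∈ X, ((ball X y g).card : ℝ) ≤ K) (hSX : S ⊆ X) (hcol : NoCol X)
    (hconv : ∀ y ∈ S, y ∉ convexHull ℝ ((S : Set ℂ) \ {y})) (hS' : ∀ y ∈ S, dist y 1 ≤ 1 / 100) :
    ∃ M : ℕ, ((S.card : ℝ) - 2 * K) / 2 ≤ M ∧ ∃ p : ℕ → ℂ, (∀ k < M, p k ∈ S) ∧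
      ∀ j k, j < k → k < M → Step (p j) (p k) := by
  classical
  have hS : ∀ y ∈ S, dist y 1 ≤ 1 / 30 := fun y hy => (hS' y hy).trans (by norm_num)
  rcases S.eq_empty_or_nonempty with rfl | hne
  · obtain ⟨y, hy⟩ := h.nonempty
    have hK0 : 0 ≤ K := le_trans (Nat.cast_nonneg _) (hK y hy)
    refine ⟨0, ?_, fun _ => 0, by simp, by simp⟩
    simp only [Finset.card_empty, Nat.cast_zero]
    linarith
  obtain ⟨a, haS, ha⟩ := S.exists_min_image (fun z => z.im) hne
  obtain ⟨b, hbS, hb⟩ := S.exists_max_image (fun z => z.im) hne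
  have hT0 : 0 ≤ T := (abs_nonneg _).trans (h.ann a (hSX haS))
  set S1 := S.filter fun p => a.im + 20 * T < p.im ∧ p.im < b.im - 20 * T with hS1
  have hcard1 : (S.card : ℝ) - 2 * K ≤ S1.card := by
    have hsub : S ⊆ S1 ∪ (ball X a g ∪ ball X b g) := by
      intro p hp
      by_cases h1 : p ∈ S1
      · exact Finset.mem_union_left _ h1
      apply Finset.mem_union_right
      rw [hS1, Finset.mem_filter, not_and, not_and_or, not_lt, not_lt] at h1
      rcases h1 hp with h2 | h2
      · apply Finset.mem_union_left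
        refine mem_ball.2 ⟨hSX hp, le_trans (curve_near_aux (h.ann a (hSX haS))
          (h.ann p (hSX hp)) (hS a haS) (hS p hp) ?_) hg⟩
        rw [abs_of_nonneg (sub_nonneg.2 (ha p hp))]
        linarith
      · apply Finset.mem_union_right
        refine mem_ball.2 ⟨hSX hp, le_trans (curve_near_aux (h.ann b (hSX hbS))
          (h.ann p (hSX hp)) (hS b hbS) (hS p hp) ?_) hg⟩
        rw [abs_of_nonpos (sub_nonpos.2 (hb p hp))]
        linarith
    have h1 := Finset.card_le_card hsub
    have h2 := Finset.card_union_le S1 (ball X a g ∪ ball X b g)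
    have h3 := Finset.card_union_le (ball X a g) (ball X b g)
    have h4 : (S.card : ℝ) ≤ S1.card + ((ball X a g).card + (ball X b g).card) := by
      exact_mod_cast h1.trans (h2.trans (by omega))
    have h5 := hK a (hSX haS)
    have h6 := hK b (hSX hbS)
    linarith
  have hS1S : ∀ p ∈ S1, p ∈ S := fun p hp => (Finset.mem_filter.1 hp).1
  have hS1i : ∀ p ∈ S1, a.im + 20 * T < p.im ∧ p.im < b.im - 20 * T :=
    fun p hp => (Finset.mem_filter.1 hp).2
  have hside : ∀ p ∈ S1, ((b - a) * conj (p - a)).im ≠ 0 := by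
    intro p hp
    obtain ⟨h1, h2⟩ := hS1i p hp
    apply hcol a (hSX haS) b (hSX hbS) p (hSX (hS1S p hp))
    · rintro rfl
      linarith
    · rintro rfl
      linarith
    · rintro rfl
      linarith
  -- slopes in one class
  have hslope : ∀ s : ℝ, (s = 1 ∨ s = -1) →
      ∀ y ∈ S1.filter (fun p => 0 < s * ((b - a) * conj (p - a)).im),
      ∀ z ∈ S1.filter (fun p => 0 < s * ((b - a) * conj (p - a)).im),
        |z.re - y.re| ≤ |z.im - y.im| / 10 := by
    intro s hs
    -- the case where `q` is on the outer side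
    have main : ∀ p ∈ S1, 0 < s * ((b - a) * conj (p - a)).im → ∀ q ∈ S,
        |q.im - p.im| / 10 < s * (q.re - p.re) → False := by
      intro p hp hpp q hq hpq
      obtain ⟨h1, h2⟩ := hS1i p hp
      have hpS := hS1S p hp
      have hap : |p.re - a.re| ≤ (p.im - a.im) / 10 := by
        have := curve_slope_aux (h.ann a (hSX haS)) (h.ann p (hSX hpS)) (hS a haS) (hS p hpS)
          (by rw [abs_of_nonneg (sub_nonneg.2 (ha p hpS))]; linarith)
        rwa [abs_of_nonneg (sub_nonneg.2 (ha p hpS))] at this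
      have hbp : |b.re - p.re| ≤ (b.im - p.im) / 10 := by
        have := curve_slope_aux (h.ann p (hSX hpS)) (h.ann b (hSX hbS)) (hS p hpS) (hS b hbS)
          (by rw [abs_of_nonneg (sub_nonneg.2 (hb p hpS))]; linarith)
        rwa [abs_of_nonneg (sub_nonneg.2 (hb p hpS))] at this
      have hapi : a.im < p.im := by linarith
      have hbpi : p.im < b.im := by linarith
      apply hconv p hpS
      refine curve_conv_aux (convex_convexHull ℝ _) (a := a) (b := b) (q := q)
        (subset_convexHull ℝ _ ?_) (subset_convexHull ℝ _ ?_) (subset_convexHull ℝ _ ?_)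
        hap hapi hbp hbpi hpq hs hpp
      · refine ⟨haS, ?_⟩
        rintro rfl
        exact lt_irrefl _ hapi
      · refine ⟨hbS, ?_⟩
        rintro rfl
        exact lt_irrefl _ hbpi
      · refine ⟨hq, ?_⟩
        rintro rfl
        simp at hpq
    intro y hy z hz
    obtain ⟨hy1, hy2⟩ := Finset.mem_filter.1 hy
    obtain ⟨hz1, hz2⟩ := Finset.mem_filter.1 hz
    by_contra hcon
    rw [not_le] at hcon
    have hsabs : |z.re - y.re| = s * (z.re - y.re) ∨ |z.re - y.re| = s * (y.re - z.re) := by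
      rcases abs_choice (z.re - y.re) with h1 | h1 <;> rcases hs with rfl | rfl <;> rw [h1]
      · left; ring
      · right; ring
      · right; ring
      · left; ring
    rcases hsabs with h1 | h1
    · rw [h1] at hcon
      exact main y hy1 hy2 z (hS1S z hz1) hcon
    · rw [h1, abs_sub_comm] at hcon
      exact main z hz1 hz2 y (hS1S y hy1) hcon
  -- the larger class
  have hsplit : S1.card = (S1.filter fun p => 0 < (1 : ℝ) * ((b - a) * conj (p - a)).im).card +
      (S1.filter fun p => 0 < (-1 : ℝ) * ((b - a) * conj (p - a)).im).card := by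
    rw [← Finset.card_filter_add_card_filter_not (s := S1)
      (p := fun p => 0 < (1 : ℝ) * ((b - a) * conj (p - a)).im)]
    congr 2
    apply Finset.filter_congr
    intro p hp
    have h1 := hside p hp
    constructor
    · intro h2
      rw [not_lt, one_mul] at h2
      have h3 := lt_of_le_of_ne h2 h1
      linarith
    · intro h2
      rw [not_lt, one_mul]
      linarith
  have hcase : ∃ s : ℝ, (s = 1 ∨ s = -1) ∧ (S1.card : ℝ) / 2 ≤
      ((S1.filter fun p => 0 < s * ((b - a) * conj (p - a)).im).card : ℝ) := by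
    by_contra hcon
    push Not at hcon
    have h1 := hcon 1 (Or.inl rfl)
    have h2 := hcon (-1) (Or.inr rfl)
    have h3 : (S1.card : ℝ) =
        ((S1.filter fun p => 0 < (1 : ℝ) * ((b - a) * conj (p - a)).im).card : ℝ) +
        ((S1.filter fun p => 0 < (-1 : ℝ) * ((b - a) * conj (p - a)).im).card : ℝ) := by
      exact_mod_cast hsplit
    linarith
  obtain ⟨s, hs, hsc⟩ := hcase
  set S2 := S1.filter fun p => 0 < s * ((b - a) * conj (p - a)).im with hS2
  have hS2S : ∀ y ∈ S2, y ∈ S := fun y hy => hS1S y (Finset.mem_filter.1 hy).1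
  obtain ⟨p, hp1, hp2⟩ := curve_enum_aux (S2 := S2) (fun y hy => hS' y (hS2S y hy))
    (fun y hy z hz => (hslope s hs y hy z hz).trans (by
      have := abs_nonneg (z.im - y.im)
      linarith))
  exact ⟨S2.card, by linarith, p, fun k hk => hS2S _ (hp1 k hk), hp2⟩

end Pool.Agent.Vpd
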