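import Pool.Agent.Lib.Vpd.Main
import Pool.Agent.Lib.Vpd.Arc
import Pool.Agent.Lib.Vps.Wrap

/-!
# The result (MP_733c86_co)
-/

set_option autoImplicit false

open Finset Pool.Agent.Vps
open scoped ComplexConjugate

namespace Pool.Agent.Vpd

/-- The linear part of an affine similarity preserves scalar products up to the factor. -/
theorem flat_of (f : EuclideanSpace ℝ (Fin 2) ≃ᵃ[ℝ] ℂ) {κ : ℝ} (hκ : 0 < κ)
    (hf : ∀ a b, dist (f a) (f b) = κ * dist a b) {u : EuclideanSpace ℝ (Fin 2)} (hu : ‖u‖ = 1) :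
    ∃ w : ℂ, ‖w‖ = 1 ∧ ∀ a b, ((f b - f a) * conj w).re = κ * inner ℝ (b - a) u := by
  have hmap : ∀ a b, f.linear (b - a) = f b - f a := by
    intro a b
    exact AffineMap.linearMap_vsub (f : EuclideanSpace ℝ (Fin 2) →ᵃ[ℝ] ℂ) b a
  have hlin : ∀ v, ‖f.linear v‖ = κ * ‖v‖ := by
    intro v
    have h1 := hf v 0
    rw [dist_eq_norm, dist_eq_norm, ← hmap, sub_zero] at h1
    exact h1
  have hinner : ∀ v v', inner ℝ (f.linear v) (f.linear v') = κ ^ 2 * inner ℝ v v' := by
    intro v v'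
    rw [real_inner_eq_norm_add_mul_self_sub_norm_mul_self_sub_norm_mul_self_div_two,
      real_inner_eq_norm_add_mul_self_sub_norm_mul_self_sub_norm_mul_self_div_two, ← map_add,
      hlin, hlin, hlin]
    ring
  refine ⟨((1 / κ : ℝ) : ℂ) * f.linear u, ?_, ?_⟩
  · rw [norm_mul, hlin, hu, Complex.norm_real, Real.norm_eq_abs, abs_of_pos (by positivity)]
    field_simp
  · intro a b
    have h1 : ((f b - f a) * conj (((1 / κ : ℝ) : ℂ) * f.linear u)).re =
        1 / κ * inner ℝ (f.linear (b - a)) (f.linear u) := by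
      rw [hmap, Complex.inner, map_mul, Complex.conj_ofReal]
      simp only [Complex.mul_re, Complex.mul_im, Complex.ofReal_re, Complex.ofReal_im,
        Complex.conj_re, Complex.conj_im]
      ring
    rw [h1, hinner]
    field_simp

/-- Composition with a rotation. -/
theorem exists_rot (f : EuclideanSpace ℝ (Fin 2) ≃ᵃ[ℝ] ℂ) {κ : ℝ}
    (hf : ∀ a b, dist (f a) (f b) = κ * dist a b) {u : ℂ} (hu : ‖u‖ = 1) :
    ∃ f' : EuclideanSpace ℝ (Fin 2) ≃ᵃ[ℝ] ℂ, (∀ a b, dist (f' a) (f' b) = κ * dist a b) ∧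
      ∀ a, f' a = conj u * f a := by
  have hu0 : conj u ≠ 0 := by
    intro h0
    have : ‖conj u‖ = 0 := by rw [h0, norm_zero]
    rw [Complex.norm_conj, hu] at this
    exact one_ne_zero this
  let L : ℂ ≃ₗ[ℝ] ℂ := LinearEquiv.ofBijective
    ((LinearMap.mul ℝ ℂ) (conj u)) ⟨fun a b h => mul_left_cancel₀ hu0 h,
      fun b => ⟨(conj u)⁻¹ * b, by
        show conj u * ((conj u)⁻¹ * b) = b
        rw [← mul_assoc, mul_inv_cancel₀ hu0, one_mul]⟩⟩
  refine ⟨f.trans L.toAffineEquiv, ?_, fun a => rfl⟩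
  intro a b
  show dist (conj u * f a) (conj u * f b) = _
  rw [dist_eq_norm, ← mul_sub, norm_mul, Complex.norm_conj, hu, one_mul, ← dist_eq_norm, hf]

/-- The numerical condition of the final theorem. -/
theorem final_num {n m e κ : ℝ} (hn : 0 < n) (hm : 0 < m) (hmn : m ≤ n)
    (he : e + 1 < 2 * (1 / 10 ^ 33) * (m ^ 2 / n)) (he0 : 0 ≤ e)
    (hκ : κ ≤ 12 / (m / (170000 * n)) + 1) :
    10 ^ 21 * κ * (e + 1) ≤ m / (170000 * n) * n := by
  have h1 : κ ≤ 13 * 170000 * (n / m) := by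
    refine hκ.trans ?_
    have h2 : 12 / (m / (170000 * n)) = 12 * 170000 * (n / m) := by
      field_simp
    rw [h2]
    have h3 : 1 ≤ n / m := by rwa [le_div_iff₀ hm, one_mul]
    nlinarith
  have h5 : 10 ^ 21 * κ * (e + 1) ≤
      10 ^ 21 * (13 * 170000 * (n / m)) * (2 * (1 / 10 ^ 33) * (m ^ 2 / n)) := by
    have a2 : 10 ^ 21 * κ ≤ 10 ^ 21 * (13 * 170000 * (n / m)) := by linarith
    exact mul_le_mul a2 he.le (by positivity) (by positivity)
  refine h5.trans ?_
  have h6 : 10 ^ 21 * (13 * 170000 * (n / m)) * (2 * (1 / 10 ^ 33) * (m ^ 2 / n)) =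
      (10 ^ 21 * (13 * 170000) * (2 * (1 / 10 ^ 33))) * m := by
    field_simp
  have h7 : m / (170000 * n) * n = 1 / 170000 * m := by
    field_simp
  rw [h6, h7]
  apply mul_le_mul_of_nonneg_right _ hm.le
  norm_num

theorem main :
    ∃ c : ℝ, 0 < c ∧ ∀ n : ℕ, ∀ x : Fin n → EuclideanSpace ℝ (Fin 2),
        Function.Injective x →
        (∀ i j k : Fin n, i ≠ j → i ≠ k → j ≠ k →
          ¬ Collinear ℝ ({x i, x j, x k} : Set (EuclideanSpace ℝ (Fin 2)))) →
        (∀ i j k l : Fin n, i ≠ j → i ≠ k → i ≠ l → j ≠ k → j ≠ l → k ≠ l →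
          ¬ EuclideanGeometry.Cospherical
              ({x i, x j, x k, x l} : Set (EuclideanSpace ℝ (Fin 2)))) →
        (∀ i : Fin n, ∀ r : ℝ,
          (Finset.univ.filter (fun j : Fin n => j ≠ i ∧ dist (x i) (x j) = r)).card ≤ 2) →
        ∀ S : Finset (Fin n),
          (ConvexIndependent ℝ (fun i : S => x i) ∨
            ∃ u : EuclideanSpace ℝ (Fin 2), ‖u‖ = 1 ∧
              ∀ i ∈ S, ∀ j ∈ S, 19 / 20 * dist (x i) (x j) ≤ |inner ℝ (x j - x i) u|) →
          (n : ℝ) / 2 + c * ((S.card : ℝ) ^ 2 / n) - 1 ≤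
            (((Finset.univ.filter (fun p : Fin n × Fin n => p.1 ≠ p.2)).image
              (fun p : Fin n × Fin n => dist (x p.1) (x p.2))).card : ℝ) := by
  refine ⟨1 / 10 ^ 33, by positivity, ?_⟩
  intro n x hx hcol hcirc hvalid S hcase
  set D := (((Finset.univ.filter (fun p : Fin n × Fin n => p.1 ≠ p.2)).image
            (fun p : Fin n × Fin n => dist (x p.1) (x p.2))).card : ℝ) with hD
  have hD0 : 0 ≤ D := Nat.cast_nonneg _
  have hSn : S.card ≤ n := (Finset.card_le_univ S).trans (by simp)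
  have hSnR : (S.card : ℝ) ≤ n := by exact_mod_cast hSn
  rcases Nat.lt_or_ge n 2 with hn2 | hn2
  · have h1 : (n : ℝ) ≤ 1 := by exact_mod_cast (by omega : n ≤ 1)
    rcases Nat.eq_zero_or_pos n with h0 | hpos
    · have h2 : (n : ℝ) = 0 := by exact_mod_cast h0
      rw [h2]
      rw [div_zero, zero_div, mul_zero]
      linarith
    · have h2 : (n : ℝ) = 1 := by exact_mod_cast (by omega : n = 1)
      rw [h2] at hSnR ⊢
      have h3 : (S.card : ℝ) ^ 2 ≤ 1 := pow_le_one₀ (by positivity) hSnR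
      rw [div_one]
      linarith
  have hnpos : (0 : ℝ) < n := by exact_mod_cast (by omega : 0 < n)
  by_contra hlt
  push Not at hlt
  obtain ⟨f0, ρ, hρ, hf0, h00, h01⟩ := exists_similarity hn2 x hx
  have hinj0 : Function.Injective (fun i => f0 (x i)) := fun i j hij => hx (f0.injective hij)
  have hsys0 := sys_of (le_trans (by norm_num) hn2) hx f0 hρ hf0 hvalid
  rw [← hD] at hsys0
  set e := 2 * D - (n - 1) with he
  have he0 : 0 ≤ e := hsys0.nonneg
  have he1 : e + 1 < 2 * (1 / 10 ^ 33) * ((S.card : ℝ) ^ 2 / n) := by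
    rw [he]; linarith
  have hSpos : (0 : ℝ) < S.card := by
    by_contra hc
    have h2 : (S.card : ℝ) = 0 := le_antisymm (not_lt.1 hc) (by positivity)
    rw [h2] at he1
    simp only [ne_eq, OfNat.ofNat_ne_zero, not_false_eq_true, zero_pow, zero_div, mul_zero] at he1
    linarith
  -- the arc
  have hcard0 : (univ.image fun i => f0 (x i)).card = n := by
    rw [Finset.card_image_of_injective _ hinj0]; simp
  have hratio : (S.card : ℝ) ^ 2 / n ≤ n := by
    rw [div_le_iff₀ (by positivity)]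
    calc (S.card : ℝ) ^ 2 ≤ (n : ℝ) ^ 2 := pow_le_pow_left₀ (by positivity) hSnR 2
      _ = n * n := by ring
  have hen : 10 ^ 32 * (e + 1) ≤ n := by
    have : 2 * (1 / 10 ^ 33 : ℝ) * ((S.card : ℝ) ^ 2 / n) ≤ 2 * (1 / 10 ^ 33) * n :=
      mul_le_mul_of_nonneg_left hratio (by positivity)
    linarith
  have hne0 : (univ.image fun i => f0 (x i)).Nonempty := by
    rw [← Finset.card_pos, hcard0]; omega
  have hA0 := annulus hsys0 hne0 (by
      rw [Finset.sum_image (fun a _ b _ hab => hinj0 hab)]; exact h00) (by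
      rw [Finset.sum_image (fun a _ b _ hab => hinj0 hab), h01, hcard0]) (by
      rw [hcard0]; linarith)
  have hT : 5 * e / ((univ.image fun i => f0 (x i)).card : ℝ) ≤ 1 / 1000 := by
    rw [hcard0, div_le_div_iff₀ hnpos (by norm_num)]
    linarith
  set S0 := S.image (fun i => f0 (x i)) with hS0
  have hS0card : S0.card = S.card := Finset.card_image_of_injective _ hinj0
  obtain ⟨u, hu, harc⟩ := exists_arc (S := S0) (by
    intro y hy
    have hyX : y ∈ univ.image (fun i => f0 (x i)) := by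
      rw [hS0, Finset.mem_image] at hy
      obtain ⟨i, _, rfl⟩ := hy
      exact Finset.mem_image_of_mem _ (Finset.mem_univ _)
    have h2 := (hA0.ann y hyX).trans hT
    have h0 := norm_nonneg y
    have h4 : |‖y‖ - 1| ≤ |‖y‖ ^ 2 - 1| := by
      have : ‖y‖ ^ 2 - 1 = (‖y‖ - 1) * (‖y‖ + 1) := by ring
      rw [this, abs_mul]
      have h5 : 1 ≤ |‖y‖ + 1| := by rw [abs_of_nonneg (by linarith)]; linarith
      exact le_mul_of_one_le_right (abs_nonneg _) h5
    exact h4.trans h2)
  obtain ⟨f, hf, hfu⟩ := exists_rot f0 hf0 hu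
  have hinj : Function.Injective (fun i => f (x i)) := fun i j hij => hx (f.injective hij)
  have hcard : (univ.image fun i => f (x i)).card = n := by
    rw [Finset.card_image_of_injective _ hinj]; simp
  have hsys := sys_of (le_trans (by norm_num) hn2) hx f hρ hf hvalid
  rw [← hD, ← he] at hsys
  set S1 := S.filter (fun i => dist (f (x i)) 1 ≤ 1 / 100) with hS1
  have hdist : ∀ i, dist (f (x i)) 1 = dist (f0 (x i)) u := by
    intro i
    rw [hfu]
    have h1 : (1 : ℂ) = conj u * u := by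
      rw [mul_comm, Complex.mul_conj, Complex.normSq_eq_norm_sq, hu]; simp
    rw [h1, dist_eq_norm, ← mul_sub, norm_mul, Complex.norm_conj, hu, one_mul, ← dist_eq_norm]
  have hS1card : ((S0.filter fun y => dist y u ≤ 1 / 100).card : ℝ) = S1.card := by
    rw [hS0, Finset.filter_image, Finset.card_image_of_injective _ hinj0, hS1]
    simp only [hdist]
  have hS1img : (S1.image fun i => f (x i)).card = S1.card :=
    Finset.card_image_of_injective _ hinj
  have hsub : (S1.image fun i => f (x i)) ⊆ (univ.image fun i => f (x i)) :=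
    Finset.image_subset_image (Finset.subset_univ _)
  set δ : ℝ := (S.card : ℝ) / (170000 * n) with hδ
  have hδ0 : 0 < δ := by positivity
  have hnum := final_num (κ := (⌈12 / δ⌉₊ : ℝ)) hnpos hSpos hSnR he1 he0
    (Nat.ceil_lt_add_one (by positivity)).le
  have hδ1 : δ ≤ 1 := by
    rw [hδ, div_le_one (by positivity)]
    linarith
  have hκ := Nat.le_ceil (12 / δ)
  have hκ12 : (12 : ℝ) ≤ (⌈12 / δ⌉₊ : ℝ) := by
    refine le_trans ?_ hκ
    rw [le_div_iff₀ hδ0]
    linarith
  refine mainD (X := univ.image fun i => f (x i)) (S := S1.image fun i => f (x i))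
    (κ := ⌈12 / δ⌉₊) (δ := δ) hsys ?_ ?_ (noCol_of hx f hcol) (noCirc_of hx f hρ hf hcirc) hsub
    ?_ ?_ hδ0 ?_ ?_ ?_ ?_
  · rw [Finset.sum_image (fun a _ b _ hab => hinj hab)]
    simp only [hfu]
    rw [← Finset.mul_sum, h00, mul_zero]
  · rw [Finset.sum_image (fun a _ b _ hab => hinj hab), hcard, ← h01]
    refine Finset.sum_congr rfl fun i _ => ?_
    rw [hfu, norm_mul, Complex.norm_conj, hu, one_mul]
  · rcases hcase with hc | ⟨v, hv, hvS⟩
    · left
      refine conv_of hx f S1 ?_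
      exact hc.comp_embedding ⟨fun i : S1 => (⟨i.1, (Finset.mem_filter.1 i.2).1⟩ : S),
        fun a b hab => Subtype.ext (congrArg (fun t : S => t.1) hab)⟩
    · right
      obtain ⟨w, hw, hwf⟩ := flat_of f hρ hf hv
      refine ⟨w, hw, ?_⟩
      intro p hp q hq
      rw [Finset.mem_image] at hp hq
      obtain ⟨i, hi, rfl⟩ := hp
      obtain ⟨j, hj, rfl⟩ := hq
      rw [hwf, hf, abs_mul, abs_of_pos hρ]
      have h1 := hvS i (Finset.mem_filter.1 hi).1 j (Finset.mem_filter.1 hj).1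
      calc 19 / 20 * (ρ * dist (x i) (x j)) = ρ * (19 / 20 * dist (x i) (x j)) := by ring
        _ ≤ _ := mul_le_mul_of_nonneg_left h1 hρ.le
  · intro y hy
    rw [Finset.mem_image] at hy
    obtain ⟨i, hi, rfl⟩ := hy
    exact (Finset.mem_filter.1 hi).2
  · rw [hcard, hS1img, ← hS1card]
    refine le_trans ?_ harc
    rw [hS0card, hδ]
    apply le_of_eq
    field_simp
  · exact_mod_cast hκ12
  · have h2 : 12 / δ * δ ≤ (⌈12 / δ⌉₊ : ℝ) * δ := mul_le_mul_of_nonneg_right hκ hδ0.le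
    rwa [div_mul_cancel₀ _ hδ0.ne'] at h2
  · rw [hcard]
    exact hnum

end Pool.Agent.Vpd
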