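import Pool.Agent.Lib.Vpd.Step

/-!
# Inversions (MP_733c86_co)
-/

set_option autoImplicit false

open Finset Pool.Agent.Vps
open scoped ComplexConjugate

namespace Pool.Agent.Vpd

/-- The step from `x` to `x'` is not consistent for the pair `z`, `y`. -/
def Inv (x x' z y : ℂ) : Prop :=
  ¬ (dist x z < dist x y ∧ dist x' z < dist x' y) ∧ ¬ (dist x y < dist x z ∧ dist x' y < dist x' z)

theorem geo_dist_sq (x y : ℂ) :
    dist x y ^ 2 = (x.re - y.re) ^ 2 + (x.im - y.im) ^ 2 := by
  rw [Complex.dist_eq, ← Complex.normSq_eq_norm_sq, Complex.normSq_apply]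
  simp only [Complex.sub_re, Complex.sub_im]
  ring

theorem geo_norm_sq (x : ℂ) : ‖x‖ ^ 2 = x.re ^ 2 + x.im ^ 2 := by
  rw [← Complex.normSq_eq_norm_sq, Complex.normSq_apply]
  ring

theorem geo_near_one {x : ℂ} (h : dist x 1 ≤ 1 / 100) :
    |x.re - 1| ≤ 1 / 100 ∧ |x.im| ≤ 1 / 100 := by
  rw [Complex.dist_eq] at h
  constructor
  · have := Complex.abs_re_le_norm (x - 1)
    simp only [Complex.sub_re, Complex.one_re] at this
    linarith
  · have := Complex.abs_im_le_norm (x - 1)
    simp only [Complex.sub_im, Complex.one_im, sub_zero] at this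
    linarith

theorem geo_near_I {z : ℂ} (h : dist z Complex.I ≤ 1 / 50) :
    |z.re| ≤ 1 / 50 ∧ |z.im - 1| ≤ 1 / 50 := by
  rw [Complex.dist_eq] at h
  constructor
  · have := Complex.abs_re_le_norm (z - Complex.I)
    simp only [Complex.sub_re, Complex.I_re, sub_zero] at this
    linarith
  · have := Complex.abs_im_le_norm (z - Complex.I)
    simp only [Complex.sub_im, Complex.I_im] at this
    linarith

/-- PROOF: `|x' - z|² - |x - z|² = ⟨x' - x, x + x' - 2 z⟩`, `x + x' - 2 z` is about `(2, -2)`. -/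
theorem dist_lt_of_step {x x' z : ℂ} (h : Step x x') (hz : dist z Complex.I ≤ 1 / 50) :
    dist x' z < dist x z := by
  obtain ⟨hx1, hx2⟩ := geo_near_one h.near
  obtain ⟨hy1, hy2⟩ := geo_near_one h.near'
  obtain ⟨hz1, hz2⟩ := geo_near_I hz
  have hup := h.up
  have hsl := h.slope
  rw [abs_le] at hx1 hx2 hy1 hy2 hz1 hz2 hsl
  apply lt_of_pow_lt_pow_left₀ 2 dist_nonneg
  rw [geo_dist_sq, geo_dist_sq]
  have e : (x'.re - z.re) ^ 2 + (x'.im - z.im) ^ 2 - ((x.re - z.re) ^ 2 + (x.im - z.im) ^ 2) =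
      (x'.re - x.re) * (x.re + x'.re - 2 * z.re) + (x'.im - x.im) * (x.im + x'.im - 2 * z.im) := by
    ring
  have hA : 0 ≤ x.re + x'.re - 2 * z.re := by linarith
  have hA2 : x.re + x'.re - 2 * z.re ≤ 103 / 50 := by linarith
  have hd : 0 < x'.im - x.im := by linarith
  have h1 : (x'.re - x.re) * (x.re + x'.re - 2 * z.re) ≤
      (93 / 100 * (x'.im - x.im)) * (103 / 50) := by
    calc (x'.re - x.re) * (x.re + x'.re - 2 * z.re)
        ≤ (93 / 100 * (x'.im - x.im)) * (x.re + x'.re - 2 * z.re) :=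
          mul_le_mul_of_nonneg_right hsl.2 hA
      _ ≤ (93 / 100 * (x'.im - x.im)) * (103 / 50) :=
          mul_le_mul_of_nonneg_left hA2 (by linarith)
  have h2 : (x'.im - x.im) * (x.im + x'.im - 2 * z.im) ≤ (x'.im - x.im) * (-(97 / 50)) :=
    mul_le_mul_of_nonneg_left (by linarith) hd.le
  linarith

/-- The affine function `φ(q) = |q - z|² - |q - y|²` vanishes at a point near `1`. -/
theorem geo_zero {x x' z y : ℂ} (h : Step x x') (hinv : Inv x x' z y) :
    ∃ a b : ℝ, |a - 1| ≤ 1 / 100 ∧ |b| ≤ 1 / 100 ∧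
      2 * (a * (y.re - z.re) + b * (y.im - z.im)) =
        (y.re ^ 2 + y.im ^ 2) - (z.re ^ 2 + z.im ^ 2) := by
  obtain ⟨hx1, hx2⟩ := geo_near_one h.near
  obtain ⟨hy1, hy2⟩ := geo_near_one h.near'
  rw [abs_le] at hx1 hx2 hy1 hy2
  -- the affine function
  set f : ℝ := 2 * (x.re * (y.re - z.re) + x.im * (y.im - z.im)) -
    ((y.re ^ 2 + y.im ^ 2) - (z.re ^ 2 + z.im ^ 2)) with hf
  set f' : ℝ := 2 * (x'.re * (y.re - z.re) + x'.im * (y.im - z.im)) -
    ((y.re ^ 2 + y.im ^ 2) - (z.re ^ 2 + z.im ^ 2)) with hf'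
  have ef : f = dist x z ^ 2 - dist x y ^ 2 := by
    rw [geo_dist_sq, geo_dist_sq, hf]; ring
  have ef' : f' = dist x' z ^ 2 - dist x' y ^ 2 := by
    rw [geo_dist_sq, geo_dist_sq, hf']; ring
  have neg : ∀ u : ℂ, dist u z ^ 2 - dist u y ^ 2 < 0 → dist u z < dist u y := by
    intro u hu
    exact lt_of_pow_lt_pow_left₀ 2 dist_nonneg (by linarith)
  have pos : ∀ u : ℂ, 0 < dist u z ^ 2 - dist u y ^ 2 → dist u y < dist u z := by
    intro u hu
    exact lt_of_pow_lt_pow_left₀ 2 dist_nonneg (by linarith)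
  have h1 : ¬ (f < 0 ∧ f' < 0) := by
    rintro ⟨h1, h2⟩
    rw [ef] at h1
    rw [ef'] at h2
    exact hinv.1 ⟨neg x h1, neg x' h2⟩
  have h2 : ¬ (0 < f ∧ 0 < f') := by
    rintro ⟨h1, h2⟩
    rw [ef] at h1
    rw [ef'] at h2
    exact hinv.2 ⟨pos x h1, pos x' h2⟩
  -- a parameter
  obtain ⟨t, ht0, ht1, ht⟩ : ∃ t : ℝ, 0 ≤ t ∧ t ≤ 1 ∧ (1 - t) * f + t * f' = 0 := by
    rcases eq_or_ne f f' with hff | hff
    · have h0 : f = 0 := by
        rcases lt_trichotomy f 0 with h3 | h3 | h3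
        · exact absurd ⟨h3, hff ▸ h3⟩ h1
        · exact h3
        · exact absurd ⟨h3, hff ▸ h3⟩ h2
      exact ⟨0, le_refl _, zero_le_one, by rw [h0]; ring⟩
    · have hd : f - f' ≠ 0 := sub_ne_zero.2 hff
      refine ⟨f / (f - f'), ?_, ?_, ?_⟩
      · rcases lt_or_gt_of_ne hd with hlt | hgt
        · have : f ≤ 0 := by
            by_contra h3
            push Not at h3
            exact h2 ⟨h3, by linarith⟩
          exact div_nonneg_of_nonpos this hlt.le
        · have : 0 ≤ f := by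
            by_contra h3
            push Not at h3
            exact h1 ⟨h3, by linarith⟩
          exact div_nonneg this hgt.le
      · rcases lt_or_gt_of_ne hd with hlt | hgt
        · have : 0 ≤ f' := by
            by_contra h3
            push Not at h3
            exact h1 ⟨by linarith, h3⟩
          rw [div_le_one_of_neg hlt]
          linarith
        · have : f' ≤ 0 := by
            by_contra h3
            push Not at h3
            exact h2 ⟨by linarith, h3⟩
          rw [div_le_one hgt]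
          linarith
      · field_simp
        ring
  refine ⟨(1 - t) * x.re + t * x'.re, (1 - t) * x.im + t * x'.im, ?_, ?_, ?_⟩
  · rw [abs_le]
    have hs : 0 ≤ 1 - t := by linarith
    constructor
    · have a1 := mul_le_mul_of_nonneg_left hx1.1 hs
      have a2 := mul_le_mul_of_nonneg_left hy1.1 ht0
      linarith
    · have a1 := mul_le_mul_of_nonneg_left hx1.2 hs
      have a2 := mul_le_mul_of_nonneg_left hy1.2 ht0
      linarith
  · rw [abs_le]
    have hs : 0 ≤ 1 - t := by linarith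
    constructor
    · have a1 := mul_le_mul_of_nonneg_left hx2.1 hs
      have a2 := mul_le_mul_of_nonneg_left hy2.1 ht0
      linarith
    · have a1 := mul_le_mul_of_nonneg_left hx2.2 hs
      have a2 := mul_le_mul_of_nonneg_left hy2.2 ht0
      linarith
  · rw [hf, hf'] at ht
    linear_combination ht

/-- PROOF: `φ(q) = |q - z|² - |q - y|²` is affine in `q` and `φ(x)`, `φ(x')` are not both positive
and not both negative: `φ(q) = 0` for some `q` of the segment, `dist q 1 ≤ 1 / 100`. So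
`2 ⟨q, y - z⟩ = |y|² - |z|²`, `⟨y + z, y - z⟩ = |y|² - |z|²`, both `≤ 2 T` in absolute value; `q` is about
`1`, `y + z` about `2 I`. -/
theorem close_of_inv {T : ℝ} {x x' z y : ℂ} (h : Step x x') (hz : dist z Complex.I ≤ 1 / 50)
    (hy : dist y Complex.I ≤ 1 / 50) (hzT : |‖z‖ ^ 2 - 1| ≤ T) (hyT : |‖y‖ ^ 2 - 1| ≤ T)
    (hinv : Inv x x' z y) : dist z y ≤ 3 * T := by
  obtain ⟨a, b, ha, hb, hab⟩ := geo_zero h hinv
  obtain ⟨hz1, hz2⟩ := geo_near_I hz
  obtain ⟨hy1, hy2⟩ := geo_near_I hy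
  rw [geo_norm_sq] at hzT hyT
  set n1 : ℝ := y.re - z.re with hn1
  set n2 : ℝ := y.im - z.im with hn2
  set w : ℝ := (y.re ^ 2 + y.im ^ 2) - (z.re ^ 2 + z.im ^ 2) with hw
  have hwT : |w| ≤ 2 * T := by
    rw [abs_le] at hzT hyT ⊢
    constructor <;> linarith [hzT.1, hzT.2, hyT.1, hyT.2]
  have e2 : (y.re + z.re) * n1 + (y.im + z.im) * n2 = w := by
    rw [hn1, hn2, hw]; ring
  -- `|n1| ≤ T + ...`
  have k1 : |n1| ≤ T + 1 / 100 * |n1| + 1 / 100 * |n2| := by
    have : n1 = w / 2 - (a - 1) * n1 - b * n2 := by linarith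
    calc |n1| = |w / 2 - (a - 1) * n1 - b * n2| := by rw [← this]
      _ ≤ |w / 2 - (a - 1) * n1| + |b * n2| := abs_sub _ _
      _ ≤ |w / 2| + |(a - 1) * n1| + |b * n2| := by gcongr; exact abs_sub _ _
      _ = |w| / 2 + |a - 1| * |n1| + |b| * |n2| := by
          rw [abs_mul, abs_mul, abs_div, abs_two]
      _ ≤ 2 * T / 2 + 1 / 100 * |n1| + 1 / 100 * |n2| := by gcongr
      _ = T + 1 / 100 * |n1| + 1 / 100 * |n2| := by ring
  have k2 : |n2| ≤ T + 1 / 50 * |n1| + 1 / 50 * |n2| := by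
    have : n2 = w / 2 - (y.re + z.re) / 2 * n1 - ((y.im - 1) + (z.im - 1)) / 2 * n2 := by
      linarith
    have c1 : |(y.re + z.re) / 2| ≤ 1 / 50 := by
      rw [abs_le] at hz1 hy1 ⊢
      constructor <;> linarith [hz1.1, hz1.2, hy1.1, hy1.2]
    have c2 : |((y.im - 1) + (z.im - 1)) / 2| ≤ 1 / 50 := by
      rw [abs_le] at hz2 hy2 ⊢
      constructor <;> linarith [hz2.1, hz2.2, hy2.1, hy2.2]
    calc |n2| = |w / 2 - (y.re + z.re) / 2 * n1 - ((y.im - 1) + (z.im - 1)) / 2 * n2| := by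
          rw [← this]
      _ ≤ |w / 2 - (y.re + z.re) / 2 * n1| + |((y.im - 1) + (z.im - 1)) / 2 * n2| := abs_sub _ _
      _ ≤ |w / 2| + |(y.re + z.re) / 2 * n1| + |((y.im - 1) + (z.im - 1)) / 2 * n2| := by
          gcongr; exact abs_sub _ _
      _ = |w| / 2 + |(y.re + z.re) / 2| * |n1| + |((y.im - 1) + (z.im - 1)) / 2| * |n2| := by
          rw [abs_mul, abs_mul, abs_div, abs_two]
      _ ≤ 2 * T / 2 + 1 / 50 * |n1| + 1 / 50 * |n2| := by gcongr
      _ = T + 1 / 50 * |n1| + 1 / 50 * |n2| := by ring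
  have hT : 0 ≤ T := (abs_nonneg _).trans hzT
  have hsum : |n1| + |n2| ≤ 3 * T := by
    have := abs_nonneg n1
    have := abs_nonneg n2
    linarith
  have hd : dist z y ≤ |n1| + |n2| := by
    rw [dist_comm, Complex.dist_eq]
    have := Complex.norm_le_abs_re_add_abs_im (y - z)
    simpa only [Complex.sub_re, Complex.sub_im] using this
  exact hd.trans hsum

/-- PROOF: with `q` as above `n = y - z` is orthogonal to `(y + z) / 2 - q`, which is about `(-1, 1)`:
`n.re / n.im ∈ [97/103, 103/97]`, `n.im ≠ 0`; `φ(p') - φ(p) = 2 ⟨p' - p, n⟩` has the sign of `n.im`. -/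
theorem mono_of_inv {x x' z y : ℂ} (h : Step x x') (hz : dist z Complex.I ≤ 1 / 50)
    (hy : dist y Complex.I ≤ 1 / 50) (hzy : z ≠ y) (hinv : Inv x x' z y) :
    (∀ p p' : ℂ, Step p p' → dist p z ^ 2 - dist p y ^ 2 < dist p' z ^ 2 - dist p' y ^ 2) ∨
    (∀ p p' : ℂ, Step p p' → dist p' z ^ 2 - dist p' y ^ 2 < dist p z ^ 2 - dist p y ^ 2) := by
  obtain ⟨a, b, ha, hb, hab⟩ := geo_zero h hinv
  obtain ⟨hz1, hz2⟩ := geo_near_I hz
  obtain ⟨hy1, hy2⟩ := geo_near_I hy
  set n1 : ℝ := y.re - z.re with hn1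
  set n2 : ℝ := y.im - z.im with hn2
  -- orthogonality
  set s : ℝ := a - (y.re + z.re) / 2 with hs
  set r : ℝ := (y.im + z.im) / 2 - b with hr
  have horth : s * n1 = r * n2 := by
    rw [hs, hr]
    have e2 : (y.re + z.re) * n1 + (y.im + z.im) * n2 =
        (y.re ^ 2 + y.im ^ 2) - (z.re ^ 2 + z.im ^ 2) := by
      rw [hn1, hn2]; ring
    linarith
  rw [abs_le] at hz1 hz2 hy1 hy2 ha hb
  have s0 : 97 / 100 ≤ s := by rw [hs]; linarith
  have r0 : 0 ≤ r := by rw [hr]; linarith
  have r1 : r ≤ 103 / 100 := by rw [hr]; linarith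
  -- `|n1| ≤ 531/500 |n2|`
  have hn : |n1| ≤ 531 / 500 * |n2| := by
    have e : s * |n1| = r * |n2| := by
      have := congrArg abs horth
      rwa [abs_mul, abs_mul, abs_of_nonneg (by linarith : (0:ℝ) ≤ s), abs_of_nonneg r0] at this
    have h1 : 97 / 100 * |n1| ≤ s * |n1| := mul_le_mul_of_nonneg_right s0 (abs_nonneg _)
    have h2 : r * |n2| ≤ 103 / 100 * |n2| := mul_le_mul_of_nonneg_right r1 (abs_nonneg _)
    have h3 := abs_nonneg n2
    linarith
  have hn2 : n2 ≠ 0 := by
    intro h0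
    rw [h0, abs_zero, mul_zero] at hn
    have h1 : n1 = 0 := abs_eq_zero.1 (le_antisymm hn (abs_nonneg _))
    apply hzy
    apply Complex.ext
    · linarith
    · linarith
  have key : ∀ p p' : ℂ, (dist p' z ^ 2 - dist p' y ^ 2) - (dist p z ^ 2 - dist p y ^ 2) =
      2 * ((p'.re - p.re) * n1 + (p'.im - p.im) * n2) := by
    intro p p'
    rw [geo_dist_sq, geo_dist_sq, geo_dist_sq, geo_dist_sq, hn1]
    ring
  have small : ∀ p p' : ℂ, Step p p' →
      |(p'.re - p.re) * n1| ≤ 93 / 100 * (p'.im - p.im) * (531 / 500 * |n2|) := by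
    intro p p' hp
    rw [abs_mul]
    have hup := hp.up
    exact mul_le_mul hp.slope hn (abs_nonneg _) (by linarith)
  rcases lt_or_gt_of_ne hn2 with hlt | hgt
  · right
    intro p p' hp
    have h1 := small p p' hp
    rw [abs_le, abs_of_neg hlt] at h1
    have hd : 0 < p'.im - p.im := by linarith [hp.up]
    have h2 := key p p'
    have h3 : (p'.im - p.im) * n2 < 0 := mul_neg_of_pos_of_neg hd hlt
    nlinarith [h1.1, h1.2]
  · left
    intro p p' hp
    have h1 := small p p' hp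
    rw [abs_le, abs_of_pos hgt] at h1
    have hd : 0 < p'.im - p.im := by linarith [hp.up]
    have h2 := key p p'
    have h3 : 0 < (p'.im - p.im) * n2 := mul_pos hd hgt
    nlinarith [h1.1, h1.2]

open Classical in
/-- The points of `X` near `I` which are in a pair inconsistent for the step. -/
noncomputable def Unst (X : Finset ℂ) (x x' : ℂ) : Finset ℂ :=
  X.filter fun a => dist a Complex.I ≤ 1 / 50 ∧
    ∃ b ∈ X, dist b Complex.I ≤ 1 / 50 ∧ b ≠ a ∧ Inv x x' a b

/-- A set of naturals with any two elements consecutive has at most two elements. -/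
theorem geo_card_two {S : Finset ℕ} (h : ∀ k ∈ S, ∀ k' ∈ S, k < k' → k' ≤ k + 1) :
    S.card ≤ 2 := by
  rcases S.eq_empty_or_nonempty with rfl | hne
  · simp
  · have hsub : S ⊆ {S.min' hne, S.min' hne + 1} := by
      intro k hk
      have h1 := S.min'_le k hk
      rcases h1.eq_or_lt with h2 | h2
      · simp [h2]
      · have := h _ (S.min'_mem hne) k hk h2
        have : k = S.min' hne + 1 := by omega
        simp [this]
    exact (card_le_card hsub).trans card_le_two

/-- For a pair `a ≠ b` near `I` at most two steps are inconsistent. -/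
theorem geo_two_steps {M : ℕ} {p : ℕ → ℂ} (hp : ∀ j k, j < k → k < M → Step (p j) (p k))
    {a b : ℂ} (ha : dist a Complex.I ≤ 1 / 50) (hb : dist b Complex.I ≤ 1 / 50) (hab : a ≠ b)
    {k k' : ℕ} (hk' : k' + 1 < M) (h1 : Inv (p k) (p (k + 1)) a b)
    (h2 : Inv (p k') (p (k' + 1)) a b) : k' ≤ k + 1 := by
  by_contra hcon
  push Not at hcon
  have neg : ∀ u z y : ℂ, dist u z ^ 2 - dist u y ^ 2 < 0 → dist u z < dist u y := by
    intro u z y hu
    exact lt_of_pow_lt_pow_left₀ 2 dist_nonneg (by linarith)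
  have sk : Step (p k) (p (k + 1)) := hp k (k + 1) (by omega) (by omega)
  have sk1 : Step (p (k + 1)) (p k') := hp (k + 1) k' hcon (by omega)
  have sk' : Step (p k') (p (k' + 1)) := hp k' (k' + 1) (by omega) hk'
  rcases mono_of_inv sk ha hb hab h1 with hm | hm
  · have m1 := hm _ _ sk
    have m2 := hm _ _ sk1
    have m3 := hm _ _ sk'
    -- `φ (p (k + 1)) ≥ 0`
    have f1 : 0 ≤ dist (p (k + 1)) a ^ 2 - dist (p (k + 1)) b ^ 2 := by
      by_contra hc
      push Not at hc
      exact h1.1 ⟨neg _ _ _ (by linarith), neg _ _ _ hc⟩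
    -- `φ (p k') ≤ 0`
    have f2 : dist (p k') a ^ 2 - dist (p k') b ^ 2 ≤ 0 := by
      by_contra hc
      push Not at hc
      exact h2.2 ⟨neg _ _ _ (by linarith), neg _ _ _ (by linarith)⟩
    linarith
  · have m1 := hm _ _ sk
    have m2 := hm _ _ sk1
    have m3 := hm _ _ sk'
    have f1 : dist (p (k + 1)) a ^ 2 - dist (p (k + 1)) b ^ 2 ≤ 0 := by
      by_contra hc
      push Not at hc
      exact h1.2 ⟨neg _ _ _ (by linarith), neg _ _ _ (by linarith)⟩
    have f2 : 0 ≤ dist (p k') a ^ 2 - dist (p k') b ^ 2 := by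
      by_contra hc
      push Not at hc
      exact h2.1 ⟨neg _ _ _ hc, neg _ _ _ (by linarith)⟩
    linarith

/-- PROOF. `card (Unst X x x')` is at most the number of ordered pairs `(a, b)` near `I`, `a ≠ b`,
`Inv x x' a b`; by `close_of_inv` `b ∈ ball X a g`: at most `card X * K` pairs in all. For a given
pair at most two `k < M - 1` have `Inv (p k) (p (k + 1)) a b`: by `mono_of_inv` `φ (p k)` is strictly
monotone in `k`, and `Inv` means `φ (p k) ≤ 0 ≤ φ (p (k + 1))` (or the reverse): if `k < k'` are two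
such, `k' = k + 1`. Double counting as in `Vps.sum_coin`. -/
theorem sum_unst {X : Finset ℂ} {e T : ℝ} (h : Ann X e T) {g K : ℝ} (hg : 3 * T ≤ g)
    (hK : ∀ y ∈ X, ((ball X y g).card : ℝ) ≤ K) {M : ℕ} {p : ℕ → ℂ}
    (hp : ∀ j k, j < k → k < M → Step (p j) (p k)) :
    ∑ k ∈ range (M - 1), ((Unst X (p k) (p (k + 1))).card : ℝ) ≤ 2 * X.card * K := by
  classical
  -- the relation
  let F : ℕ → ℂ → ℂ → Prop := fun k a b =>
    dist a Complex.I ≤ 1 / 50 ∧ dist b Complex.I ≤ 1 / 50 ∧ b ≠ a ∧ Inv (p k) (p (k + 1)) a b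
  have step1 : ∀ k ∈ range (M - 1), (Unst X (p k) (p (k + 1))).card ≤
      ∑ a ∈ X, ∑ b ∈ ball X a g, if F k a b then 1 else 0 := by
    intro k hk
    have hkM : k + 1 < M := by
      have := Finset.mem_range.1 hk
      omega
    have hst : Step (p k) (p (k + 1)) := hp k (k + 1) (by omega) hkM
    unfold Unst
    rw [Finset.card_filter]
    apply Finset.sum_le_sum
    intro a ha
    split_ifs with hcond
    · obtain ⟨hna, b, hbX, hnb, hba, hin⟩ := hcond
      have hclose : dist a b ≤ 3 * T :=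
        close_of_inv hst hna hnb (h.ann a ha) (h.ann b hbX) hin
      have hbb : b ∈ ball X a g := by
        rw [mem_ball]
        exact ⟨hbX, by rw [dist_comm]; linarith⟩
      have hF : F k a b := ⟨hna, hnb, hba, hin⟩
      calc (1 : ℕ) = if F k a b then 1 else 0 := by rw [if_pos hF]
        _ ≤ ∑ b ∈ ball X a g, if F k a b then 1 else 0 :=
            Finset.single_le_sum (f := fun b => if F k a b then 1 else 0)
              (fun _ _ => Nat.zero_le _) hbb
    · exact Nat.zero_le _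
  have step2 : ∑ k ∈ range (M - 1), (Unst X (p k) (p (k + 1))).card ≤
      ∑ a ∈ X, ∑ b ∈ ball X a g, 2 := by
    calc ∑ k ∈ range (M - 1), (Unst X (p k) (p (k + 1))).card
        ≤ ∑ k ∈ range (M - 1), ∑ a ∈ X, ∑ b ∈ ball X a g, (if F k a b then 1 else 0) :=
          Finset.sum_le_sum step1
      _ = ∑ a ∈ X, ∑ b ∈ ball X a g, ∑ k ∈ range (M - 1), (if F k a b then 1 else 0) := by
          rw [Finset.sum_comm]
          apply Finset.sum_congr rfl
          intro a _
          rw [Finset.sum_comm]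
      _ ≤ ∑ a ∈ X, ∑ b ∈ ball X a g, 2 := by
          apply Finset.sum_le_sum
          intro a _
          apply Finset.sum_le_sum
          intro b _
          rw [← Finset.card_filter]
          apply geo_card_two
          intro k hk k' hk' hlt
          rw [Finset.mem_filter] at hk hk'
          obtain ⟨_, hna, hnb, hba, hin⟩ := hk
          obtain ⟨hr, _, _, _, hin'⟩ := hk'
          have hkM : k' + 1 < M := by
            have := Finset.mem_range.1 hr
            omega
          exact geo_two_steps hp hna hnb (Ne.symm hba) hkM hin hin'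
  have step3 : (∑ a ∈ X, ∑ b ∈ ball X a g, (2 : ℕ) : ℕ) = ∑ a ∈ X, 2 * (ball X a g).card := by
    apply Finset.sum_congr rfl
    intro a _
    rw [Finset.sum_const, smul_eq_mul, mul_comm]
  rw [step3] at step2
  have step4 : (∑ k ∈ range (M - 1), ((Unst X (p k) (p (k + 1))).card : ℝ)) ≤
      ∑ a ∈ X, 2 * ((ball X a g).card : ℝ) := by
    exact_mod_cast step2
  calc (∑ k ∈ range (M - 1), ((Unst X (p k) (p (k + 1))).card : ℝ))
      ≤ ∑ a ∈ X, 2 * ((ball X a g).card : ℝ) := step4
    _ ≤ ∑ a ∈ X, 2 * K := by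
        apply Finset.sum_le_sum
        intro a ha
        have := hK a ha
        linarith
    _ = 2 * X.card * K := by
        rw [Finset.sum_const, nsmul_eq_mul]
        ring

end Pool.Agent.Vpd
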