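import Pool.Agent.Lib.Vps.NoTwin

/-!
# Good ranks (MP_733c86_co)
-/

set_option autoImplicit false

open Finset Pool.Agent.Vps
open scoped ComplexConjugate

namespace Pool.Agent.Vpd

/-- The distances which `x` does not see exactly once on each side. -/
noncomputable def BadD (X : Finset ℂ) (x : ℂ) : Finset ℝ :=
  ((Dset X).filter fun d => (X.filter fun z => dist x z = d).card ≤ 1) ∪ coin X x

/-- Their ranks. -/
noncomputable def BadR (X : Finset ℂ) (x : ℂ) : Finset ℕ :=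
  (BadD X x).image fun d => ((Dset X).filter fun d' => d' ≤ d).card

/-- PROOF: `card_image_le`, `card_union_le`, `badcount` with `Y = X`. -/
theorem card_BadR {X : Finset ℂ} {e : ℝ} (h : Sys X e) {x : ℂ} (hx : x ∈ X) :
    ((BadR X x).card : ℝ) ≤ e + ((coin X x).card : ℝ) := by
  have h1 : (BadR X x).card ≤
      ((Dset X).filter fun d => (X.filter fun z => dist x z = d).card ≤ 1).card +
        (coin X x).card := Finset.card_image_le.trans (Finset.card_union_le _ _)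
  have h2 := badcount h (Finset.Subset.refl X) hx
  rw [Finset.sdiff_self, Finset.card_empty, Nat.cast_zero, add_zero] at h2
  have h3 : ((BadR X x).card : ℝ) ≤
      (((Dset X).filter fun d => (X.filter fun z => dist x z = d).card ≤ 1).card : ℝ) +
        ((coin X x).card : ℝ) := by exact_mod_cast h1
  linarith

namespace GoodRankAux

theorem succ_rank {S : Finset ℝ} {d0 δ : ℝ} (h0 : d0 ∈ S) (hδ : 0 ≤ δ) (k : ℕ)
    (hk : ∀ d, d0 ≤ d → d ≤ d0 + δ * k → ∃ d' ∈ S, d < d' ∧ d' ≤ d + δ) :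
    ∀ j ≤ k, ∃ d ∈ S, (S.filter fun d' => d' ≤ d).card =
      (S.filter fun d' => d' ≤ d0).card + j ∧ d0 ≤ d ∧ d ≤ d0 + δ * j := by
  intro j
  induction j with
  | zero =>
    intro _
    exact ⟨d0, h0, rfl, le_rfl, by simp⟩
  | succ j ih =>
    intro hj
    obtain ⟨d, hd, h1, h2, h3⟩ := ih (by omega)
    have hjk : (j : ℝ) ≤ k := by exact_mod_cast (by omega : j ≤ k)
    obtain ⟨d', hd', h4, h5⟩ := hk d h2 (h3.trans (by
      have := mul_le_mul_of_nonneg_left hjk hδ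
      linarith))
    have hne : (S.filter fun t => d < t).Nonempty := ⟨d', Finset.mem_filter.2 ⟨hd', h4⟩⟩
    obtain ⟨b, hb, hmin⟩ := Finset.exists_min_image _ (fun t : ℝ => t) hne
    rw [Finset.mem_filter] at hb
    have hbd : b ≤ d' := hmin d' (Finset.mem_filter.2 ⟨hd', h4⟩)
    refine ⟨b, hb.1, ?_, by linarith [hb.2], by push_cast; linarith⟩
    by_contra hcon
    have hcon' : (S.filter fun t => t ≤ b).card ≠ (S.filter fun t => t ≤ d).card + 1 := by
      intro h6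
      apply hcon
      rw [h6, h1]
      ring
    obtain ⟨t, ht, h7, h8⟩ := RankAux.exists_between hb.2 hb.1 hcon'
    have := hmin t (Finset.mem_filter.2 ⟨ht, h7⟩)
    linarith

/-- coordinates of a point near `1` -/
theorem near_one {x : ℂ} (h : dist x 1 ≤ 1 / 20) :
    19 / 20 ≤ x.re ∧ x.re ≤ 21 / 20 ∧ |x.im| ≤ 1 / 20 := by
  rw [Complex.dist_eq] at h
  have h1 := (Complex.abs_re_le_norm (x - 1)).trans h
  have h2 := (Complex.abs_im_le_norm (x - 1)).trans h
  simp only [Complex.sub_re, Complex.sub_im, Complex.one_re, Complex.one_im, sub_zero] at h1 h2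
  rw [abs_le] at h1
  exact ⟨by linarith [h1.1], by linarith [h1.2], h2⟩

/-- coordinates of a point near `I` -/
theorem near_I {y : ℂ} {r : ℝ} (h : dist y Complex.I ≤ r) :
    |y.re| ≤ r ∧ 1 - r ≤ y.im ∧ y.im ≤ 1 + r := by
  rw [Complex.dist_eq] at h
  have h1 := (Complex.abs_re_le_norm (y - Complex.I)).trans h
  have h2 := (Complex.abs_im_le_norm (y - Complex.I)).trans h
  simp only [Complex.sub_re, Complex.sub_im, Complex.I_re, Complex.I_im, sub_zero] at h1 h2
  rw [abs_le] at h2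
  exact ⟨h1, by linarith [h2.1], by linarith [h2.2]⟩

theorem dist_one_I : 141 / 100 ≤ dist (1 : ℂ) Complex.I ∧ dist (1 : ℂ) Complex.I ≤ 142 / 100 := by
  have h1 : dist (1 : ℂ) Complex.I ^ 2 = 2 := by
    rw [dist_sq_eq]
    simp
    norm_num
  have h2 : 0 ≤ dist (1 : ℂ) Complex.I := dist_nonneg
  constructor <;> nlinarith

theorem dist_bounds {x y : ℂ} (hx : dist x 1 ≤ 1 / 20) (hy : dist y Complex.I ≤ 1 / 50) :
    134 / 100 ≤ dist x y ∧ dist x y ≤ 149 / 100 := by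
  obtain ⟨h1, h2⟩ := dist_one_I
  have h3 := dist_triangle4 x 1 Complex.I y
  have h4 := dist_triangle4 (1 : ℂ) x y Complex.I
  rw [dist_comm Complex.I y] at h3
  rw [dist_comm 1 x] at h4
  constructor <;> linarith

theorem im_pos {x y : ℂ} (hx : dist x 1 ≤ 1 / 20) (hy : dist y Complex.I ≤ 1 / 50) :
    9 / 10 ≤ (y * conj x).im := by
  obtain ⟨a1, a2, a3⟩ := near_one hx
  obtain ⟨b1, b2, b3⟩ := near_I hy
  rw [abs_le] at a3 b1
  simp only [Complex.mul_im, Complex.conj_re, Complex.conj_im]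
  have h1 : (1 - 1 / 50) * (19 / 20 : ℝ) ≤ y.im * x.re :=
    mul_le_mul b2 a1 (by norm_num) (by linarith)
  have h2 : |y.re * x.im| ≤ 1 / 50 * (1 / 20) := by
    rw [abs_mul]
    exact mul_le_mul (abs_le.2 b1) (abs_le.2 a3) (abs_nonneg _) (by norm_num)
  rw [abs_le] at h2
  nlinarith [h2.1, h2.2]

theorem re_small {x y : ℂ} (hx : dist x 1 ≤ 1 / 20) (hy : dist y Complex.I ≤ 1 / 50) :
    |(y * conj x).re| ≤ 1 / 10 := by
  obtain ⟨a1, a2, a3⟩ := near_one hx
  obtain ⟨b1, b2, b3⟩ := near_I hy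
  simp only [Complex.mul_re, Complex.conj_re, Complex.conj_im]
  have h1 : |y.re * x.re| ≤ 1 / 50 * (21 / 20) := by
    rw [abs_mul]
    exact mul_le_mul b1 (abs_le.2 ⟨by linarith, a2⟩) (abs_nonneg _) (by norm_num)
  have h2 : |y.im * x.im| ≤ (1 + 1 / 50) * (1 / 20) := by
    rw [abs_mul]
    exact mul_le_mul (abs_le.2 ⟨by linarith, b3⟩) a3 (abs_nonneg _) (by norm_num)
  rw [abs_le] at h1 h2 ⊢
  constructor <;> linarith [h1.1, h1.2, h2.1, h2.2]

/-- a point at nearly the same distance and on the same side is near -/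
theorem geo {T : ℝ} {x y z : ℂ} (hT : T ≤ 1 / 10 ^ 4) (hx : |‖x‖ ^ 2 - 1| ≤ T)
    (hy : |‖y‖ ^ 2 - 1| ≤ T) (hz : |‖z‖ ^ 2 - 1| ≤ T) (hx1 : dist x 1 ≤ 1 / 20)
    (hz1 : dist z Complex.I ≤ 1 / 100) (h1 : dist x z ≤ dist x y)
    (h2 : dist x y ≤ dist x z + 9 / 10 ^ 5) (h3 : 0 < (y * conj x).im) :
    dist y Complex.I ≤ 1 / 50 := by
  have hz2 : dist z Complex.I ≤ 1 / 50 := hz1.trans (by norm_num)
  obtain ⟨c1, c2⟩ := dist_bounds hx1 hz2
  have c3 := im_pos hx1 hz2
  have c4 := re_small hx1 hz2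
  have e1 := dist_sq_eq x y
  have e2 := dist_sq_eq x z
  have f1 := norm_sq_frame x y
  have f2 := norm_sq_frame x z
  have f3 := norm_sq_frame x (y - z)
  have e4 : ((y - z) * conj x).re = (y * conj x).re - (z * conj x).re := by
    rw [sub_mul, Complex.sub_re]
  have e5 : ((y - z) * conj x).im = (y * conj x).im - (z * conj x).im := by
    rw [sub_mul, Complex.sub_im]
  rw [e4, e5, ← Complex.dist_eq] at f3
  set P := (y * conj x).re
  set Q := (y * conj x).im
  set P' := (z * conj x).re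
  set Q' := (z * conj x).im
  set a := ‖x‖ ^ 2
  set b := ‖y‖ ^ 2
  set c := ‖z‖ ^ 2
  set d := dist x y
  set d' := dist x z
  rw [abs_le] at hx hy hz c4
  have hd2 : d ^ 2 - d' ^ 2 ≤ 3 / 10 ^ 4 := by
    have : d ^ 2 - d' ^ 2 = (d - d') * (d + d') := by ring
    rw [this]
    have h5 : (d - d') * (d + d') ≤ 9 / 10 ^ 5 * (d + d') :=
      mul_le_mul_of_nonneg_right (by linarith) (by linarith)
    linarith
  have hd3 : 0 ≤ d ^ 2 - d' ^ 2 := by
    have : d ^ 2 - d' ^ 2 = (d - d') * (d + d') := by ring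
    rw [this]
    exact mul_nonneg (by linarith) (by linarith)
  have hP : |P - P'| ≤ 3 / 10 ^ 4 := by
    rw [abs_le]
    constructor <;> linarith [hx.1, hx.2, hy.1, hy.2, hz.1, hz.2]
  have hP' := abs_le.1 hP
  have hPP : |P ^ 2 - P' ^ 2| ≤ 1 / 10 ^ 4 := by
    have h5 : P ^ 2 - P' ^ 2 = (P - P') * (P + P') := by ring
    rw [h5, abs_mul]
    have h6 : |P + P'| ≤ 3 / 10 := by
      rw [abs_le]
      constructor <;> linarith [hP'.1, hP'.2, c4.1, c4.2]
    calc |P - P'| * |P + P'| ≤ 3 / 10 ^ 4 * (3 / 10) :=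
          mul_le_mul hP h6 (abs_nonneg _) (by norm_num)
      _ ≤ 1 / 10 ^ 4 := by norm_num
  have hPP' := abs_le.1 hPP
  have hab : |b * a - c * a| ≤ 3 / 10 ^ 4 := by
    rw [← sub_mul, abs_mul]
    have h5 : |b - c| ≤ 2 / 10 ^ 4 := by
      rw [abs_le]
      constructor <;> linarith [hy.1, hy.2, hz.1, hz.2]
    have h6 : |a| ≤ 11 / 10 := by
      rw [abs_le]
      constructor <;> linarith [hx.1, hx.2]
    calc |b - c| * |a| ≤ 2 / 10 ^ 4 * (11 / 10) := mul_le_mul h5 h6 (abs_nonneg _) (by norm_num)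
      _ ≤ 3 / 10 ^ 4 := by norm_num
  have hab' := abs_le.1 hab
  have hQQ : |Q ^ 2 - Q' ^ 2| ≤ 4 / 10 ^ 4 := by
    rw [abs_le]
    constructor <;> linarith [hab'.1, hab'.2, hPP'.1, hPP'.2]
  have hQ : |Q - Q'| ≤ 5 / 10 ^ 4 := by
    have h5 : Q ^ 2 - Q' ^ 2 = (Q - Q') * (Q + Q') := by ring
    rw [h5, abs_mul, abs_of_pos (by linarith : 0 < Q + Q')] at hQQ
    have h6 : |Q - Q'| * (9 / 10) ≤ |Q - Q'| * (Q + Q') :=
      mul_le_mul_of_nonneg_left (by linarith) (abs_nonneg _)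
    linarith
  have hsq : dist y z ^ 2 * a ≤ (1 / 1000) ^ 2 := by
    rw [f3]
    have h5 : (P - P') ^ 2 ≤ (3 / 10 ^ 4) ^ 2 := by
      rw [← sq_abs]
      exact pow_le_pow_left₀ (abs_nonneg _) hP 2
    have h6 : (Q - Q') ^ 2 ≤ (5 / 10 ^ 4) ^ 2 := by
      rw [← sq_abs]
      exact pow_le_pow_left₀ (abs_nonneg _) hQ 2
    calc (P - P') ^ 2 + (Q - Q') ^ 2 ≤ (3 / 10 ^ 4) ^ 2 + (5 / 10 ^ 4) ^ 2 := add_le_add h5 h6
      _ ≤ (1 / 1000) ^ 2 := by norm_num
  have hyz : dist y z ≤ 1 / 100 := by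
    by_contra hcon
    push Not at hcon
    have h5 : (1 / 100 : ℝ) ^ 2 ≤ dist y z ^ 2 := pow_le_pow_left₀ (by norm_num) hcon.le 2
    have h6 : (1 / 100 : ℝ) ^ 2 * (9 / 10) ≤ dist y z ^ 2 * a :=
      mul_le_mul h5 (by linarith [hx.1]) (by norm_num) (sq_nonneg _)
    norm_num at h6 hsq
    linarith
  have := dist_triangle y z Complex.I
  linarith

end GoodRankAux

open GoodRankAux

/-- PROOF. (1) For `u ≤ W` there is `d ∈ Dset X` with rank `R X x z + u` (rank of `d` = number of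
elements of `Dset X` that are `≤ d`) and `dist x z ≤ d ≤ dist x z + 9 g u`: induction on `u`; the next
one is the least element of `Dset X` greater than `d`; it is `≤ d + 9 g` by `meet` at `d + g`
(`dist x z` is about `√2`), and its rank is one more (`RankAux.exists_between`, contrapositive).
(2) `d ∉ BadD X x`, so at least two, by `valid` exactly two, points of `X` are at distance `d` from
`x`; as `d ∉ coin X x` exactly one, `y`, has `0 < Im (y conj x)`. `z` also has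
`0 < Im (z conj x)` (it is about `1`) and every point `y'` with `dist y' I ≤ 1 / 50` has.
(3) `P = Re (y conj x) = (‖x‖² + ‖y‖² - d²) / 2` (`dist_sq_eq`) differs from `Re (z conj x)` by
`≤ 2 T + 14 g W`, `|P| ≤ 1 / 10`, `Q = Im (y conj x) > 0`, `P² + Q² = ‖x‖² ‖y‖²` (`norm_sq_frame`), so
`Q` differs from `Im (z conj x) ≥ 9 / 10` by `≤ 10 T + 10 g W`, and
`dist y z * ‖x‖ = ‖(y - z) conj x‖ ≤ 1 / 200`.
(4) Uniqueness: `dist_eq_of_R_eq` (both distances are in `Dset X`), then `y'` is one of the two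
points, and on the left side. -/
theorem good_rank {X : Finset ℂ} {e T : ℝ} (h : Ann X e T) {g : ℝ} (hg0 : 0 < g)
    (hg : g ≤ 1 / 10 ^ 8) (hT : T ≤ g / 10 ^ 11) (hn : 2 * 10 ^ 12 * (e + 1) ≤ X.card * g)
    {W : ℕ} (hW : (W : ℝ) * g ≤ 1 / 10 ^ 5) {x : ℂ} (hx : x ∈ X) (hx1 : dist x 1 ≤ 1 / 20)
    {z : ℂ} (hz : z ∈ X) (hz1 : dist z Complex.I ≤ 1 / 100) {u : ℕ} (hu : u ≤ W)
    (hb : R X x z + u ∉ BadR X x) :
    ∃ y ∈ X, dist y Complex.I ≤ 1 / 50 ∧ R X x y = R X x z + u ∧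
      ∀ y' ∈ X, dist y' Complex.I ≤ 1 / 50 → R X x y' = R X x z + u → y' = y := by
  have hTg : T ≤ 1 / 10 ^ 4 := by
    refine hT.trans ?_
    rw [div_le_iff₀ (by norm_num)]
    refine hg.trans ?_
    norm_num
  have hz2 : dist z Complex.I ≤ 1 / 50 := hz1.trans (by norm_num)
  obtain ⟨c1, c2⟩ := dist_bounds hx1 hz2
  have hxz : x ≠ z := by
    rintro rfl
    rw [dist_self] at c1
    norm_num at c1
  have hzS : dist x z ∈ Dset X := dist_mem_Dset hx hz hxz
  have huW : (u : ℝ) ≤ W := by exact_mod_cast hu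
  have hgu : (u : ℝ) * g ≤ 1 / 10 ^ 5 := (mul_le_mul_of_nonneg_right huW hg0.le).trans hW
  -- step (1)
  obtain ⟨d, hdS, hrk, hd1, hd2⟩ := succ_rank (S := Dset X) (d0 := dist x z) (δ := 9 * g) hzS
    (by linarith) u (by
      intro t ht1 ht2
      obtain ⟨d', hd', h1, h2⟩ := meet h hg0 hg hT hn (d := t + g) (by linarith)
        (by nlinarith)
      exact ⟨d', hd', by linarith, by linarith⟩) u le_rfl
  have hd3 : d ≤ dist x z + 9 / 10 ^ 5 := by
    have : 9 * g * (u : ℝ) = 9 * ((u : ℝ) * g) := by ring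
    linarith
  have hdb1 : 134 / 100 ≤ d := c1.trans hd1
  have hdb2 : d ≤ 150 / 100 := by linarith
  have hrk' : ((Dset X).filter fun d' => d' ≤ d).card = R X x z + u := hrk
  -- step (2)
  have hdB : d ∉ BadD X x := by
    intro hmem
    apply hb
    rw [← hrk']
    exact Finset.mem_image_of_mem _ hmem
  rw [BadD, Finset.mem_union, not_or] at hdB
  obtain ⟨hdB1, hdB2⟩ := hdB
  have htwo : 1 < (X.filter fun z => dist x z = d).card := by
    by_contra hcon
    exact hdB1 (Finset.mem_filter.2 ⟨hdS, not_lt.1 hcon⟩)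
  have hside : ∀ y ∈ X, ∀ y' ∈ X, dist x y = d → dist x y' = d →
      0 < (y * conj x).im → 0 < (y' * conj x).im → y = y' := by
    intro y hy y' hy' h1 h2 h3 h4
    by_contra hne
    apply hdB2
    rw [coin, Finset.mem_filter]
    exact ⟨hdS, by linarith, by linarith, y, hy, y', hy', hne, h1, h2, iff_of_true h3 h4⟩
  have hside' : ∀ y ∈ X, ∀ y' ∈ X, dist x y = d → dist x y' = d → y ≠ y' →
      0 < (y * conj x).im ∨ 0 < (y' * conj x).im := by
    intro y hy y' hy' h1 h2 hne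
    by_contra hcon
    rw [not_or] at hcon
    apply hdB2
    rw [coin, Finset.mem_filter]
    exact ⟨hdS, by linarith, by linarith, y, hy, y', hy', hne, h1, h2,
      iff_of_false hcon.1 hcon.2⟩
  obtain ⟨y1, hy1, y2, hy2, hne⟩ := Finset.one_lt_card.1 htwo
  rw [Finset.mem_filter] at hy1 hy2
  obtain ⟨y, hy, hyd, hyi⟩ : ∃ y ∈ X, dist x y = d ∧ 0 < (y * conj x).im := by
    rcases hside' y1 hy1.1 y2 hy2.1 hy1.2 hy2.2 hne with h1 | h1
    · exact ⟨y1, hy1.1, hy1.2, h1⟩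
    · exact ⟨y2, hy2.1, hy2.2, h1⟩
  have hRy : R X x y = R X x z + u := by
    rw [← hrk', R, hyd]
  refine ⟨y, hy, ?_, hRy, ?_⟩
  · exact geo hTg (h.ann x hx) (h.ann y hy) (h.ann z hz) hx1 hz1 (by rw [hyd]; exact hd1)
      (by rw [hyd]; exact hd3) hyi
  · intro y' hy' hy'1 hRy'
    obtain ⟨b1, -⟩ := dist_bounds hx1 hy'1
    have hxy' : x ≠ y' := by
      rintro rfl
      rw [dist_self] at b1
      norm_num at b1
    have h5 : dist x y' = dist x y :=
      dist_eq_of_R_eq (dist_mem_Dset hx hy' hxy') (by rw [hyd]; exact hdS) (by rw [hRy, hRy'])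
    have h6 := im_pos hx1 hy'1
    exact hside y' hy' y hy (h5.trans hyd) hyd (by linarith) hyi

end Pool.Agent.Vpd
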