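import Pool.Agent.Lib.Vpd.Curve

/-!
# A curve of steps from a set with flat chords (MP_733c86_co)
-/

set_option autoImplicit false

open Finset Pool.Agent.Vps
open scoped ComplexConjugate

namespace Pool.Agent.Vpd

/-- A vector which is long in one direction is short in the other one. -/
theorem lip_flat_aux {w z : ℂ} (hw : ‖w‖ = 1) (h : 19 / 20 * ‖z‖ ≤ |(z * conj w).re|) :
    |(z * conj w).im| ≤ |(z * conj w).re| / 3 := by
  have h1 : ‖z * conj w‖ = ‖z‖ := by
    rw [norm_mul, Complex.norm_conj, hw, mul_one]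
  have h2 : ‖z * conj w‖ ^ 2 = (z * conj w).re * (z * conj w).re +
      (z * conj w).im * (z * conj w).im := by
    rw [← Complex.normSq_eq_norm_sq, Complex.normSq_apply]
  rw [h1] at h2
  set x := (z * conj w).re
  set y := (z * conj w).im
  have h3 : (19 / 20 * ‖z‖) ^ 2 ≤ x * x := by
    have := pow_le_pow_left₀ (by positivity) h 2
    rwa [sq_abs, sq x] at this
  apply abs_le_of_sq_le_sq _ (by positivity)
  rw [div_pow, sq_abs]
  nlinarith [mul_self_nonneg x]

/-- The slope of a vector which makes a small angle with a nearly vertical one. -/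
theorem lip_slope_aux {w z c : ℂ} (hw : ‖w‖ = 1)
    (hz : |(z * conj w).im| ≤ |(z * conj w).re| / 3)
    (hc : |(c * conj w).im| ≤ |(c * conj w).re| / 3)
    (hr : |c.re| ≤ |c.im| / 10) (hs : c.im ≠ 0) : |z.re| ≤ 93 / 100 * |z.im| := by
  have e0 : z * conj c = (z * conj w) * conj (c * conj w) := by
    rw [map_mul, Complex.conj_conj]
    have : conj w * w = 1 := by
      rw [mul_comm, Complex.mul_conj, Complex.normSq_eq_norm_sq, hw]
      norm_num
    calc z * conj c = z * conj c * 1 := (mul_one _).symm
      _ = z * conj c * (conj w * w) := by rw [this]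
      _ = z * conj w * (conj c * w) := by ring
  have e1 : (z * conj c).im = (z * conj w).im * (c * conj w).re -
      (z * conj w).re * (c * conj w).im := by
    rw [e0]
    simp only [Complex.mul_im, Complex.conj_re, Complex.conj_im]
    ring
  have e2 : (z * conj c).re = (z * conj w).re * (c * conj w).re +
      (z * conj w).im * (c * conj w).im := by
    rw [e0]
    simp only [Complex.mul_re, Complex.conj_re, Complex.conj_im]
    ring
  have e3 : (z * conj c).im = z.im * c.re - z.re * c.im := by
    simp only [Complex.mul_im, Complex.conj_re, Complex.conj_im]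
    ring
  have e4 : (z * conj c).re = z.re * c.re + z.im * c.im := by
    simp only [Complex.mul_re, Complex.conj_re, Complex.conj_im]
    ring
  set p := (z * conj w).re
  set q := (z * conj w).im
  set r := (c * conj w).re
  set t := (c * conj w).im
  have f1 : |q * r| ≤ |p| * |r| / 3 := by
    rw [abs_mul]
    have := mul_le_mul_of_nonneg_right hz (abs_nonneg r)
    linarith
  have f2 : |p * t| ≤ |p| * |r| / 3 := by
    rw [abs_mul]
    have := mul_le_mul_of_nonneg_left hc (abs_nonneg p)
    linarith
  have f3 : |q * t| ≤ |p| * |r| / 9 := by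
    rw [abs_mul]
    have := mul_le_mul hz hc (abs_nonneg t) (by positivity)
    linarith
  have f4 : |(z * conj c).im| ≤ 3 / 4 * |(z * conj c).re| := by
    have g1 : |(z * conj c).im| ≤ |q * r| + |p * t| := by
      rw [e1]
      exact abs_sub _ _
    have g2 : |p * r| - |q * t| ≤ |(z * conj c).re| := by
      rw [e2]
      have := abs_sub_abs_le_abs_sub (p * r) (-(q * t))
      rw [abs_neg, sub_neg_eq_add] at this
      exact this
    rw [abs_mul p r] at g2
    linarith
  -- in the coordinates
  have hspos : 0 < |c.im| := abs_pos.2 hs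
  have k1 : |z.re| * |c.im| ≤ |z.im| * |c.re| + |(z * conj c).im| := by
    rw [← abs_mul, ← abs_mul]
    have : z.re * c.im = z.im * c.re - (z * conj c).im := by
      rw [e3]; ring
    rw [this]
    exact abs_sub _ _
  have k2 : |(z * conj c).re| ≤ |z.re| * |c.re| + |z.im| * |c.im| := by
    rw [e4, ← abs_mul, ← abs_mul]
    exact abs_add_le _ _
  have k3 : |z.im| * |c.re| ≤ |z.im| * (|c.im| / 10) := mul_le_mul_of_nonneg_left hr (abs_nonneg _)
  have k4 : |z.re| * |c.re| ≤ |z.re| * (|c.im| / 10) := mul_le_mul_of_nonneg_left hr (abs_nonneg _)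
  have k5 : |z.re| * |c.im| ≤ 93 / 100 * |z.im| * |c.im| := by
    have : 0 ≤ |z.im| * |c.im| := by positivity
    nlinarith
  exact le_of_mul_le_mul_right k5 hspos

/-- There are two points of `S` far from each other; the chord is nearly vertical and all the other
chords make a small angle with it. -/
theorem lip_curve {X S : Finset ℂ} {e T : ℝ} (h : Ann X e T) {g K : ℝ}
    (hg : 30 * T ≤ g) (hK : ∀ y ∈ X, ((ball X y g).card : ℝ) ≤ K) (hSX : S ⊆ X)
    {w : ℂ} (hw : ‖w‖ = 1)
    (hlip : ∀ p ∈ S, ∀ q ∈ S, 19 / 20 * dist p q ≤ |((q - p) * conj w).re|)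
    (hS : ∀ y ∈ S, dist y 1 ≤ 1 / 100) (hbig : K < S.card) :
    ∃ p : ℕ → ℂ, (∀ k < S.card, p k ∈ S) ∧ ∀ j k, j < k → k < S.card → Step (p j) (p k) := by
  classical
  obtain ⟨y, hy⟩ := h.nonempty
  have hK0 : 0 ≤ K := le_trans (Nat.cast_nonneg _) (hK y hy)
  have hne : S.Nonempty := by
    rw [← Finset.card_pos]
    exact_mod_cast hK0.trans_lt hbig
  obtain ⟨a, haS⟩ := hne
  have hex : ∃ b ∈ S, g < dist b a := by
    by_contra hcon
    push Not at hcon
    have h1 : S ⊆ ball X a g := fun b hb => mem_ball.2 ⟨hSX hb, hcon b hb⟩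
    have h2 := Finset.card_le_card h1
    have h3 : (S.card : ℝ) ≤ (ball X a g).card := by exact_mod_cast h2
    have h4 := hK a (hSX haS)
    linarith
  obtain ⟨b, hbS, hab⟩ := hex
  have hS30 : ∀ y ∈ S, dist y 1 ≤ 1 / 30 := fun y hy => (hS y hy).trans (by norm_num)
  have h20 : 20 * T < |b.im - a.im| := by
    by_contra hcon
    rw [not_lt] at hcon
    have := curve_near_aux (h.ann a (hSX haS)) (h.ann b (hSX hbS)) (hS30 a haS) (hS30 b hbS) hcon
    linarith
  have hT0 : 0 ≤ T := (abs_nonneg _).trans (h.ann a (hSX haS))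
  have hsl := curve_slope_aux (h.ann a (hSX haS)) (h.ann b (hSX hbS)) (hS30 a haS) (hS30 b hbS)
    h20.le
  have hflat : ∀ p ∈ S, ∀ q ∈ S, |((q - p) * conj w).im| ≤ |((q - p) * conj w).re| / 3 := by
    intro p hp q hq
    apply lip_flat_aux hw
    have := hlip p hp q hq
    rwa [dist_comm, Complex.dist_eq] at this
  apply curve_enum_aux hS
  intro p hp q hq
  have := lip_slope_aux hw (hflat p hp q hq) (hflat a haS b hbS) (by simpa using hsl) (by
    intro h0
    rw [Complex.sub_im] at h0
    rw [h0, abs_zero] at h20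
    linarith)
  simpa using this

end Pool.Agent.Vpd
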