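import Mathlib

/-!
# Selection of a chain and of three steps (MP_733c86_co): the combinatorics

`Rk k z` is the rank of the point `z` at the step `k < M`; `Bad k` the ranks which may fail to be
seen exactly once in `B`; `Un k` the points which change their place in the order of `B` between the
steps `k` and `k + 1`.
-/

set_option autoImplicit false

open Finset

namespace Pool.Agent.Vpd

section

variable {α : Type*} [DecidableEq α]

/-- The rank `r` is seen exactly once in `B`. -/
def OnceF (B : Finset α) (f : α → ℕ) (r : ℕ) : Prop :=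
  ∃ y ∈ B, f y = r ∧ ∀ y' ∈ B, f y' = r → y' = y

theorem between_card {B : Finset α} {f : α → ℕ} {r0 W : ℕ}
    (h : ∀ u, 1 ≤ u → u ≤ W → OnceF B f (r0 + u)) :
    ∀ r, r ≤ W → (B.filter fun b => r0 < f b ∧ f b < r0 + (r + 1)).card = r := by
  intro r
  induction r with
  | zero =>
    intro _
    rw [Finset.card_eq_zero, Finset.filter_eq_empty_iff]
    intro b _ hb
    omega
  | succ r ih =>
    intro hr
    obtain ⟨y, hy, hfy, huniq⟩ := h (r + 1) (by omega) hr
    have h1 : (B.filter fun b => r0 < f b ∧ f b < r0 + (r + 1 + 1)) =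
        insert y (B.filter fun b => r0 < f b ∧ f b < r0 + (r + 1)) := by
      ext b
      rw [Finset.mem_insert, Finset.mem_filter, Finset.mem_filter]
      constructor
      · rintro ⟨hb, h2, h3⟩
        rcases Nat.lt_or_ge (f b) (r0 + (r + 1)) with h4 | h4
        · exact Or.inr ⟨hb, h2, h4⟩
        · exact Or.inl (huniq b hb (by omega))
      · rintro (rfl | ⟨hb, h2, h3⟩)
        · exact ⟨hy, by omega, by omega⟩
        · exact ⟨hb, h2, by omega⟩
    rw [h1, Finset.card_insert_of_notMem, ih (by omega)]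
    rw [Finset.mem_filter]
    rintro ⟨_, _, h3⟩
    omega

theorem rank_of_cnt {B : Finset α} {f : α → ℕ} {r0 W : ℕ}
    (h : ∀ u, 1 ≤ u → u ≤ W → OnceF B f (r0 + u)) {y : α} (hy : r0 < f y) {i : ℕ} (hi : i ≤ W)
    (hc : (B.filter fun b => r0 < f b ∧ f b < f y).card + 1 = i) : f y = r0 + i := by
  rcases Nat.lt_or_ge (r0 + W) (f y) with h1 | h1
  · exfalso
    have h2 := between_card h W le_rfl
    have h3 : (B.filter fun b => r0 < f b ∧ f b < r0 + (W + 1)).card ≤
        (B.filter fun b => r0 < f b ∧ f b < f y).card := by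
      refine Finset.card_le_card ?_
      intro b hb
      rw [Finset.mem_filter] at hb ⊢
      exact ⟨hb.1, hb.2.1, by omega⟩
    omega
  · obtain ⟨r, hr⟩ : ∃ r, f y = r0 + (r + 1) := ⟨f y - r0 - 1, by omega⟩
    have h2 := between_card h r (by omega)
    rw [← hr] at h2
    omega

/-- Three consecutive elements of `K` with no event between them. -/
theorem triple_free {K Ev : Finset ℕ} (h : 3 * Ev.card + 3 ≤ K.card) :
    ∃ a ∈ K, ∃ b ∈ K, ∃ c ∈ K, a < b ∧ b < c ∧ ∀ j ∈ Ev, a ≤ j → j ≤ c → False := by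
  classical
  by_contra hcon0
  have hcon : ∀ a ∈ K, ∀ b ∈ K, ∀ c ∈ K, a < b → b < c → ∃ j ∈ Ev, a ≤ j ∧ j ≤ c := by
    intro a ha b hb c hc hab hbc
    by_contra h1
    push Not at h1
    exact hcon0 ⟨a, ha, b, hb, c, hc, hab, hbc, fun j hj h2 h3 => absurd h3 (not_le.2 (h1 j hj h2))⟩
  let e := K.orderEmbOfFin rfl
  have hlt : ∀ t ≤ Ev.card, 3 * t + 2 < K.card := fun t ht => by omega
  have hex : ∀ t, ∃ j, ∀ ht : t ≤ Ev.card, j ∈ Ev ∧ e ⟨3 * t, by have := hlt t ht; omega⟩ ≤ j ∧
      j ≤ e ⟨3 * t + 2, hlt t ht⟩ := by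
    intro t
    by_cases ht : t ≤ Ev.card
    · obtain ⟨j, hj, h1, h2⟩ := hcon _
        (K.orderEmbOfFin_mem rfl ⟨3 * t, by have := hlt t ht; omega⟩) _
        (K.orderEmbOfFin_mem rfl ⟨3 * t + 1, by have := hlt t ht; omega⟩) _
        (K.orderEmbOfFin_mem rfl ⟨3 * t + 2, hlt t ht⟩)
        (e.strictMono (by simp)) (e.strictMono (by simp))
      exact ⟨j, fun _ => ⟨hj, h1, h2⟩⟩
    · exact ⟨0, fun h => absurd h ht⟩
  choose g hg using hex
  have hinj : Set.InjOn g (range (Ev.card + 1) : Set ℕ) := by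
    have key : ∀ s t, s < t → t ≤ Ev.card → g s < g t := by
      intro s t hst ht
      have h1 := (hg s (by omega)).2.2
      have h2 := (hg t ht).2.1
      have h3 : e ⟨3 * s + 2, hlt s (by omega)⟩ < e ⟨3 * t, by have := hlt t ht; omega⟩ :=
        e.strictMono (by simp; omega)
      omega
    intro s hs t ht hst
    rw [Finset.coe_range, Set.mem_Iio] at hs ht
    rcases lt_trichotomy s t with h1 | h1 | h1
    · have := key s t h1 (by omega)
      omega
    · exact h1
    · have := key t s h1 (by omega)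
      omega
  have h1 : (range (Ev.card + 1)).card ≤ Ev.card := by
    apply Finset.card_le_card_of_injOn g
    · intro t ht
      rw [Finset.coe_range, Set.mem_Iio] at ht
      exact (hg t (by omega)).1
    · exact hinj
  rw [Finset.card_range] at h1
  omega

/-- The number of `z` shortly before `y`. -/
theorem cnt_before {B : Finset α} {f : α → ℕ} (hm : ∀ r, (B.filter fun z => f z = r).card ≤ 2)
    {W : ℕ} (y : α) :
    (B.filter fun z => f z < f y ∧ (B.filter fun b => f z < f b ∧ f b < f y).card + 1 ≤ W).card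
      ≤ W + 1 := by
  set Z := B.filter fun z => f z < f y ∧
    (B.filter fun b => f z < f b ∧ f b < f y).card + 1 ≤ W with hZ
  rcases Z.eq_empty_or_nonempty with h0 | hne
  · rw [h0]; simp
  obtain ⟨z0, hz0, hmin⟩ := Z.exists_min_image f hne
  rw [hZ, Finset.mem_filter] at hz0
  have h1 : Z ⊆ (B.filter fun b => f z0 < f b ∧ f b < f y) ∪ (B.filter fun z => f z = f z0) := by
    intro z hz
    have h2 := hmin z hz
    rw [hZ, Finset.mem_filter] at hz
    rw [Finset.mem_union, Finset.mem_filter, Finset.mem_filter]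
    rcases Nat.lt_or_ge (f z0) (f z) with h3 | h3
    · exact Or.inl ⟨hz.1, h3, hz.2.1⟩
    · exact Or.inr ⟨hz.1, by omega⟩
  have h2 := (Finset.card_le_card h1).trans (Finset.card_union_le _ _)
  have h3 := hm (f z0)
  have h4 := hz0.2.2
  omega

theorem cnt_le {B0 : Finset α} {f : α → ℕ} (hm : ∀ r, (B0.filter fun z => f z = r).card ≤ 2)
    (W : ℕ) (F : Finset ℕ) :
    (B0.filter fun z => ∃ u ≤ W, f z + u ∈ F).card ≤ 2 * (W + 1) * F.card := by
  have h1 : (B0.filter fun z => ∃ u ≤ W, f z + u ∈ F) ⊆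
      (range (W + 1) ×ˢ F).biUnion fun q => B0.filter fun z => f z = q.2 - q.1 := by
    intro z hz
    rw [Finset.mem_filter] at hz
    obtain ⟨hz0, u, hu, hF⟩ := hz
    refine Finset.mem_biUnion.2 ⟨(u, f z + u), ?_, ?_⟩
    · rw [Finset.mem_product, Finset.mem_range]
      exact ⟨by simp only []; omega, hF⟩
    · rw [Finset.mem_filter]
      exact ⟨hz0, by simp only []; omega⟩
  refine (Finset.card_le_card h1).trans (Finset.card_biUnion_le.trans ?_)
  refine (Finset.sum_le_card_nsmul _ _ 2 (fun q _ => hm _)).trans ?_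
  rw [Finset.card_product, Finset.card_range, smul_eq_mul]
  nlinarith


/-- The number of elements of `B` of rank strictly between those of `z` and `y`. -/
def btw (B : Finset α) (f : α → ℕ) (z y : α) : ℕ :=
  (B.filter fun b => f z < f b ∧ f b < f y).card

/-- Along consistent steps the order relative to `z` and to `y` does not change. -/
theorem btw_step {B : Finset α} {f f' : α → ℕ} {z y : α} (hz : z ∈ B) (hy : y ∈ B)
    (hcz : ∀ b ∈ B, b ≠ z → (f z < f b ∧ f' z < f' b) ∨ (f b < f z ∧ f' b < f' z))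
    (hcy : ∀ b ∈ B, b ≠ y → (f y < f b ∧ f' y < f' b) ∨ (f b < f y ∧ f' b < f' y))
    (hzy : f z < f y) : f' z < f' y ∧ btw B f' z y = btw B f z y := by
  have hne : y ≠ z := by
    rintro rfl
    exact lt_irrefl _ hzy
  have h1 : f' z < f' y := by
    rcases hcz y hy hne with h | h
    · exact h.2
    · exact absurd h.1 (by omega)
  refine ⟨h1, ?_⟩
  unfold btw
  congr 1
  apply Finset.filter_congr
  intro b hb
  by_cases hbz : b = z
  · subst hbz; simp
  by_cases hby : b = y
  · subst hby; simp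
  have h2 := hcz b hb hbz
  have h3 := hcy b hb hby
  constructor
  · rintro ⟨h4, h5⟩
    refine ⟨?_, ?_⟩
    · rcases h2 with h | h
      · exact h.1
      · exact absurd h.2 (by omega)
    · rcases h3 with h | h
      · exact absurd h.2 (by omega)
      · exact h.1
  · rintro ⟨h4, h5⟩
    refine ⟨?_, ?_⟩
    · rcases h2 with h | h
      · exact h.2
      · exact absurd h.1 (by omega)
    · rcases h3 with h | h
      · exact absurd h.1 (by omega)
      · exact h.2

/-- Selection. -/
theorem select {B B0 : Finset α} (hB : B0 ⊆ B) (hne : B0.Nonempty) {M κ n : ℕ} (hκ : 0 < κ)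
    {Rk : ℕ → α → ℕ} {Bad : ℕ → Finset ℕ} {Un : ℕ → Finset α}
    (hdec : ∀ k, k + 1 < M → ∀ z ∈ B0, Rk (k + 1) z < Rk k z)
    (hn : ∀ z ∈ B0, Rk 0 z ≤ n)
    (hgood : ∀ k < M, ∀ z ∈ B0, ∀ u ≤ 6 * κ, Rk k z + u ∉ Bad k → OnceF B (Rk k) (Rk k z + u))
    (hcons : ∀ k, k + 1 < M → ∀ a ∈ B, a ∉ Un k → ∀ b ∈ B, b ≠ a →
      (Rk k a < Rk k b ∧ Rk (k + 1) a < Rk (k + 1) b) ∨
      (Rk k b < Rk k a ∧ Rk (k + 1) b < Rk (k + 1) a))
    (hmult : ∀ k < M, ∀ r, (B.filter fun z => Rk k z = r).card ≤ 2)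
    {E1 E2 : ℝ}
    (hE1 : ∑ k ∈ range M, ((Bad k).card : ℝ) ≤ E1)
    (hE2 : ∑ k ∈ range (M - 1), ((Un k).card : ℝ) ≤ E2)
    (hcount : (4 * (6 * κ + 1) * E1 + (3 * κ + 18 * (6 * κ + 1)) * E2) / B0.card + 2 * κ +
      (n : ℝ) / κ < M - 1) :
    ∃ (w : ℕ → α) (k : Fin 3 → ℕ), Function.Injective k ∧
      (∀ a, k a + 1 < M) ∧ (∀ t ≤ 6, w t ∈ B) ∧
      (∀ t ≤ 6, ∀ t' ≤ 6, w t = w t' → t = t') ∧
      ∀ a, ∀ t < 6, Rk (k a) (w t) = Rk (k a + 1) (w (t + 1)) := by
  classical
  set W := 6 * κ with hW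
  -- bad steps
  let P : ℕ → α → Prop := fun k z => (∃ u ≤ W, Rk k z + u ∈ Bad k) ∨
    (∃ u ≤ W, Rk (k + 1) z + u ∈ Bad (k + 1))
  let Q : ℕ → α → α → Prop := fun j z y => Rk j z < Rk j y ∧ btw B (Rk j) z y + 1 ≤ W
  have hmult0 : ∀ k < M, ∀ r, (B0.filter fun z => Rk k z = r).card ≤ 2 := fun k hk r =>
    (Finset.card_le_card (Finset.filter_subset_filter _ hB)).trans (hmult k hk r)
  have hP : ∀ k ∈ range (M - 1), (B0.filter fun z => P k z).card ≤
      2 * (W + 1) * ((Bad k).card + (Bad (k + 1)).card) := by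
    intro k hk
    rw [Finset.mem_range] at hk
    have h1 : (B0.filter fun z => P k z) ⊆ (B0.filter fun z => ∃ u ≤ W, Rk k z + u ∈ Bad k) ∪
        (B0.filter fun z => ∃ u ≤ W, Rk (k + 1) z + u ∈ Bad (k + 1)) := by
      intro z hz
      rw [Finset.mem_filter] at hz
      rw [Finset.mem_union, Finset.mem_filter, Finset.mem_filter]
      rcases hz.2 with h | h
      · exact Or.inl ⟨hz.1, h⟩
      · exact Or.inr ⟨hz.1, h⟩
    have h2 := (Finset.card_le_card h1).trans (Finset.card_union_le _ _)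
    have h3 := cnt_le (hmult0 k (by omega)) W (Bad k)
    have h4 := cnt_le (hmult0 (k + 1) (by omega)) W (Bad (k + 1))
    calc (B0.filter fun z => P k z).card ≤ _ := h2
      _ ≤ 2 * (W + 1) * (Bad k).card + 2 * (W + 1) * (Bad (k + 1)).card := by omega
      _ = _ := by ring
  -- the three sums
  have sumG : ∑ z ∈ B0, (((range (M - 1)).filter fun k => P k z).card : ℝ) ≤
      4 * (W + 1) * E1 := by
    have hdc : ∑ k ∈ range (M - 1), (B0.filter fun z => P k z).card =
        ∑ z ∈ B0, ((range (M - 1)).filter fun k => P k z).card :=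
      Finset.sum_card_bipartiteAbove_eq_sum_card_bipartiteBelow (fun k z => P k z)
    have h0 : ∑ z ∈ B0, (((range (M - 1)).filter fun k => P k z).card : ℝ) =
        ∑ k ∈ range (M - 1), ((B0.filter fun z => P k z).card : ℝ) := by
      exact_mod_cast hdc.symm
    rw [h0]
    have h1 : ∑ k ∈ range (M - 1), ((B0.filter fun z => P k z).card : ℝ) ≤
        ∑ k ∈ range (M - 1), (2 * (W + 1) * (((Bad k).card : ℝ) + (Bad (k + 1)).card)) := by
      refine Finset.sum_le_sum fun k hk => ?_
      exact_mod_cast hP k hk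
    refine h1.trans ?_
    rw [← Finset.mul_sum, Finset.sum_add_distrib]
    have a1 : ∑ k ∈ range (M - 1), ((Bad k).card : ℝ) ≤ E1 := by
      refine le_trans (Finset.sum_le_sum_of_subset_of_nonneg ?_ (fun _ _ _ => by positivity)) hE1
      intro k hk
      rw [Finset.mem_range] at hk ⊢
      omega
    have a2 : ∑ k ∈ range (M - 1), ((Bad (k + 1)).card : ℝ) ≤ E1 := by
      have h2 : ∑ k ∈ range (M - 1), ((Bad (k + 1)).card : ℝ) =
          ∑ k ∈ (range (M - 1)).image (fun k => k + 1), ((Bad k).card : ℝ) := by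
        rw [Finset.sum_image (fun a _ b _ h => by simpa using h)]
      rw [h2]
      refine le_trans (Finset.sum_le_sum_of_subset_of_nonneg ?_ (fun _ _ _ => by positivity)) hE1
      intro k hk
      rw [Finset.mem_image] at hk
      obtain ⟨i, hi, rfl⟩ := hk
      rw [Finset.mem_range] at hi ⊢
      omega
    have a4 : (0 : ℝ) ≤ 2 * (W + 1) := by positivity
    have a5 := mul_le_mul_of_nonneg_left (add_le_add a1 a2) a4
    linarith
  have sum0 : ∑ z ∈ B0, (((range (M - 1)).filter fun j => z ∈ Un j).card : ℝ) ≤ E2 := by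
    have hdc : ∑ k ∈ range (M - 1), (B0.filter fun z => z ∈ Un k).card =
        ∑ z ∈ B0, ((range (M - 1)).filter fun k => z ∈ Un k).card :=
      Finset.sum_card_bipartiteAbove_eq_sum_card_bipartiteBelow (fun k z => z ∈ Un k)
    have h0 : ∑ z ∈ B0, (((range (M - 1)).filter fun k => z ∈ Un k).card : ℝ) =
        ∑ k ∈ range (M - 1), ((B0.filter fun z => z ∈ Un k).card : ℝ) := by
      exact_mod_cast hdc.symm
    rw [h0]
    refine le_trans (Finset.sum_le_sum fun k _ => ?_) hE2
    have : (B0.filter fun z => z ∈ Un k).card ≤ (Un k).card := by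
      refine Finset.card_le_card ?_
      intro z hz
      exact (Finset.mem_filter.1 hz).2
    exact_mod_cast this
  -- events `(j, y)`
  let Ev : α → Finset (ℕ × α) := fun z =>
    ((range (M - 1)).biUnion fun j => ((Un j).filter fun y => y ∈ B).image fun y => (j, y)).filter
      fun q => Q q.1 z q.2
  have memEv : ∀ z j y, (j, y) ∈ Ev z ↔ (j < M - 1 ∧ y ∈ Un j ∧ y ∈ B) ∧ Q j z y := by
    intro z j y
    simp only [Ev, Finset.mem_filter, Finset.mem_biUnion, Finset.mem_image, Finset.mem_range,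
      Prod.mk.injEq]
    constructor
    · rintro ⟨⟨j', hj', y', ⟨h1, h2⟩, rfl, rfl⟩, h3⟩
      exact ⟨⟨hj', h1, h2⟩, h3⟩
    · rintro ⟨⟨h1, h2, h3⟩, h4⟩
      exact ⟨⟨j, h1, y, ⟨h2, h3⟩, rfl, rfl⟩, h4⟩
  have sum1 : ∑ z ∈ B0, ((Ev z).card : ℝ) ≤ (W + 1) * E2 := by
    set U := (range (M - 1)).biUnion fun j => ((Un j).filter fun y => y ∈ B).image fun y => (j, y)
      with hU
    have hdc : ∑ q ∈ U, (B0.filter fun z => Q q.1 z q.2).card = ∑ z ∈ B0, (Ev z).card :=
      Finset.sum_card_bipartiteAbove_eq_sum_card_bipartiteBelow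
        (fun (q : ℕ × α) z => Q q.1 z q.2)
    have h0 : ∑ z ∈ B0, ((Ev z).card : ℝ) = ∑ q ∈ U, ((B0.filter fun z => Q q.1 z q.2).card : ℝ) := by
      exact_mod_cast hdc.symm
    rw [h0]
    have h1 : ∀ q ∈ U, ((B0.filter fun z => Q q.1 z q.2).card : ℝ) ≤ W + 1 := by
      intro q hq
      rw [hU, Finset.mem_biUnion] at hq
      obtain ⟨j, hj, hq⟩ := hq
      rw [Finset.mem_image] at hq
      obtain ⟨y, hy, rfl⟩ := hq
      rw [Finset.mem_range] at hj
      have h2 := cnt_before (hmult j (by omega)) (W := W) y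
      have h3 : (B0.filter fun z => Q j z y).card ≤ W + 1 :=
        (Finset.card_le_card (Finset.filter_subset_filter _ hB)).trans h2
      exact_mod_cast h3
    refine (Finset.sum_le_card_nsmul U _ _ h1).trans ?_
    rw [nsmul_eq_mul, mul_comm]
    apply mul_le_mul_of_nonneg_left _ (by positivity)
    refine le_trans ?_ hE2
    have h2 : U.card ≤ ∑ j ∈ range (M - 1), (Un j).card := by
      refine Finset.card_biUnion_le.trans (Finset.sum_le_sum fun j _ => ?_)
      exact Finset.card_image_le.trans (Finset.card_filter_le _ _)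
    exact_mod_cast h2
  have hB0 : (0 : ℝ) < B0.card := by exact_mod_cast hne.card_pos
  obtain ⟨z, hz, hzle⟩ : ∃ z ∈ B0, (((range (M - 1)).filter fun k => P k z).card : ℝ) +
      3 * κ * (((range (M - 1)).filter fun j => z ∈ Un j).card : ℝ) + 18 * ((Ev z).card : ℝ) ≤
      (4 * (W + 1) * E1 + (3 * κ + 18 * (W + 1)) * E2) / B0.card := by
    apply Finset.exists_le_of_sum_le hne
    rw [Finset.sum_const, nsmul_eq_mul, mul_div_cancel₀ _ hB0.ne', Finset.sum_add_distrib,
      Finset.sum_add_distrib, ← Finset.mul_sum, ← Finset.mul_sum]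
    have b1 : 3 * (κ : ℝ) * ∑ z ∈ B0, (((range (M - 1)).filter fun j => z ∈ Un j).card : ℝ) ≤
        3 * κ * E2 := mul_le_mul_of_nonneg_left sum0 (by positivity)
    linarith
  -- decrements
  set f : ℕ → ℕ := fun k => Rk k z with hf
  have hfdec : ∀ k, k + 1 < M → f (k + 1) < f k := fun k hk => hdec k hk z hz
  set Bz := (range (M - 1)).filter fun k => P k z with hBz
  set U0 := (range (M - 1)).filter fun j => z ∈ Un j with hU0
  set big := (range (M - 1)).filter fun k => κ < f k - f (k + 1) with hbig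
  have htel : ∀ m, m < M → ∑ j ∈ range m, (f j - f (j + 1)) + f m = f 0 := by
    intro m
    induction m with
    | zero => intro _; simp
    | succ m ih =>
      intro hm
      have h1 := ih (by omega)
      rw [Finset.sum_range_succ]
      have h2 := hfdec m hm
      omega
  have hM0 : 0 < M := by
    by_contra hc
    have h1 : (M : ℝ) = 0 := by exact_mod_cast (by omega : M = 0)
    rw [h1] at hcount
    have h2 : (0 : ℝ) ≤ (4 * (6 * κ + 1) * E1 + (3 * κ + 18 * (6 * κ + 1)) * E2) / B0.card := by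
      have e1 : 0 ≤ E1 := le_trans (Finset.sum_nonneg fun _ _ => by positivity) hE1
      have e2 : 0 ≤ E2 := le_trans (Finset.sum_nonneg fun _ _ => by positivity) hE2
      positivity
    have h3 : (0 : ℝ) ≤ (n : ℝ) / κ := by positivity
    linarith
  have hbigc : (big.card : ℝ) ≤ (n : ℝ) / κ := by
    have h1 : big.card * κ ≤ n := by
      have h2 : big.card • κ ≤ ∑ j ∈ big, (f j - f (j + 1)) := by
        apply Finset.card_nsmul_le_sum
        intro j hj
        rw [hbig, Finset.mem_filter] at hj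
        exact hj.2.le
      have h3 : ∑ j ∈ big, (f j - f (j + 1)) ≤ ∑ j ∈ range (M - 1), (f j - f (j + 1)) :=
        Finset.sum_le_sum_of_subset (Finset.filter_subset _ _)
      have h4 := htel (M - 1) (by omega)
      have h5 : f 0 ≤ n := hn z hz
      rw [smul_eq_mul] at h2
      omega
    have hpos : (0 : ℝ) < κ := by exact_mod_cast hκ
    rw [le_div_iff₀ hpos]
    exact_mod_cast h1
  let K : ℕ → Finset ℕ := fun v => (range (M - 1)).filter fun k => ¬ P k z ∧ f k - f (k + 1) = v
  let H : ℕ → ℕ × α → Prop := fun v q => ∃ t ∈ Icc 1 6, btw B (Rk q.1) z q.2 + 1 = t * v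
  let J : ℕ → Finset ℕ := fun v => U0 ∪ ((Ev z).filter fun q => H v q).image Prod.fst
  have hJsum : ∑ v ∈ Icc 1 κ, (J v).card ≤ κ * U0.card + 6 * (Ev z).card := by
    have h1 : ∀ v ∈ Icc 1 κ, (J v).card ≤ U0.card + ((Ev z).filter fun q => H v q).card :=
      fun v _ =>
      (Finset.card_union_le _ _).trans (Nat.add_le_add_left Finset.card_image_le _)
    refine (Finset.sum_le_sum h1).trans ?_
    rw [Finset.sum_add_distrib, Finset.sum_const, Nat.card_Icc, smul_eq_mul]
    have h2 : ∑ v ∈ Icc 1 κ, ((Ev z).filter fun q => H v q).card =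
        ∑ q ∈ Ev z, ((Icc 1 κ).filter fun v => H v q).card :=
      Finset.sum_card_bipartiteAbove_eq_sum_card_bipartiteBelow (fun v (q : ℕ × α) => H v q)
    rw [h2]
    have h3 : ∀ q ∈ Ev z, ((Icc 1 κ).filter fun v => H v q).card ≤ 6 := by
      intro q _
      have h4 : ((Icc 1 κ).filter fun v => H v q) ⊆
          (Icc 1 6).image fun t => (btw B (Rk q.1) z q.2 + 1) / t := by
        intro v hv
        rw [Finset.mem_filter] at hv
        obtain ⟨_, t, ht, htv⟩ := hv
        refine Finset.mem_image.2 ⟨t, ht, ?_⟩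
        rw [Finset.mem_Icc] at ht
        rw [htv, Nat.mul_div_cancel_left _ (by omega)]
      refine (Finset.card_le_card h4).trans (Finset.card_image_le.trans ?_)
      simp
    have h5 := Finset.sum_le_card_nsmul (Ev z) _ 6 h3
    rw [smul_eq_mul] at h5
    have h6 : (κ + 1 - 1) * U0.card = κ * U0.card := by simp
    rw [h6]
    omega
  have hKsum : M - 1 ≤ Bz.card + big.card + ∑ v ∈ Icc 1 κ, (K v).card := by
    have h1 : range (M - 1) ⊆ (Bz ∪ big) ∪ (Icc 1 κ).biUnion K := by
      intro k hk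
      rw [Finset.mem_union, Finset.mem_union]
      by_cases h2 : P k z
      · exact Or.inl (Or.inl (Finset.mem_filter.2 ⟨hk, h2⟩))
      by_cases h3 : κ < f k - f (k + 1)
      · exact Or.inl (Or.inr (Finset.mem_filter.2 ⟨hk, h3⟩))
      right
      rw [Finset.mem_range] at hk
      have h4 := hfdec k (by omega)
      refine Finset.mem_biUnion.2 ⟨f k - f (k + 1), Finset.mem_Icc.2 ⟨by omega, by omega⟩, ?_⟩
      exact Finset.mem_filter.2 ⟨Finset.mem_range.2 hk, h2, rfl⟩
    have h2 := Finset.card_le_card h1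
    rw [Finset.card_range] at h2
    have h3 := Finset.card_union_le (Bz ∪ big) ((Icc 1 κ).biUnion K)
    have h4 := Finset.card_union_le Bz big
    have h5 : ((Icc 1 κ).biUnion K).card ≤ ∑ v ∈ Icc 1 κ, (K v).card := Finset.card_biUnion_le
    omega
  obtain ⟨v, hv, hvc⟩ : ∃ v ∈ Icc 1 κ, 3 * (J v).card + 3 ≤ (K v).card := by
    by_contra hcon
    push Not at hcon
    have h1 : ∑ v ∈ Icc 1 κ, (K v).card ≤ ∑ v ∈ Icc 1 κ, (3 * (J v).card + 2) :=
      Finset.sum_le_sum fun v hv => by have := hcon v hv; omega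
    rw [Finset.sum_add_distrib, ← Finset.mul_sum, Finset.sum_const, Nat.card_Icc, smul_eq_mul]
      at h1
    have h2 : M - 1 ≤ Bz.card + big.card + (3 * (κ * U0.card + 6 * (Ev z).card) + κ * 2) := by
      have h3 : (κ + 1 - 1) * 2 = κ * 2 := by simp
      omega
    have h3 : ((M - 1 : ℕ) : ℝ) ≤ Bz.card + big.card +
        (3 * (κ * U0.card + 6 * (Ev z).card) + κ * 2) := by exact_mod_cast h2
    rw [Nat.cast_sub (by omega), Nat.cast_one] at h3
    have h4 : (W : ℝ) = 6 * κ := by rw [hW]; push_cast; ring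
    rw [h4] at hzle
    linarith
  obtain ⟨a, ha, b, hb, c, hc, hab, hbc, hfree⟩ := triple_free hvc
  rw [Finset.mem_Icc] at hv
  have hmemK : ∀ k ∈ K v, k < M - 1 ∧ ¬ P k z ∧ Rk k z = Rk (k + 1) z + v := by
    intro k hk
    rw [Finset.mem_filter, Finset.mem_range] at hk
    have h1 := hfdec k (by omega)
    have h2 := hk.2.2
    refine ⟨hk.1, hk.2.1, ?_⟩
    have h3 : f k = f (k + 1) + v := by omega
    exact h3
  have hwin : ∀ k ∈ K v, (∀ u ≤ W, OnceF B (Rk k) (Rk k z + u)) ∧
      ∀ u ≤ W, OnceF B (Rk (k + 1)) (Rk (k + 1) z + u) := by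
    intro k hk
    obtain ⟨h1, h2, -⟩ := hmemK k hk
    constructor
    · intro u hu
      exact hgood k (by omega) z hz u hu fun hbad => h2 (Or.inl ⟨u, hu, hbad⟩)
    · intro u hu
      exact hgood (k + 1) (by omega) z hz u hu fun hbad => h2 (Or.inr ⟨u, hu, hbad⟩)
  have htv : ∀ t ≤ 6, t * v ≤ W := fun t ht => Nat.mul_le_mul ht hv.2
  have hex : ∀ t, ∃ y, t ≤ 6 → y ∈ B ∧ Rk a y = Rk a z + t * v ∧
      ∀ y' ∈ B, Rk a y' = Rk a z + t * v → y' = y := by
    intro t
    by_cases ht : t ≤ 6
    · obtain ⟨y, h1, h2, h3⟩ := (hwin a ha).1 (t * v) (htv t ht)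
      exact ⟨y, fun _ => ⟨h1, h2, h3⟩⟩
    · exact ⟨z, fun h => absurd h ht⟩
  choose w hw using hex
  have hw0 : w 0 = z := by
    have h1 := (hw 0 (by omega)).2.2 z (hB hz) (by simp)
    exact h1.symm
  have claim1 : ∀ t, 1 ≤ t → t ≤ 6 → ∀ j, a ≤ j → j ≤ c + 1 →
      Rk j z < Rk j (w t) ∧ btw B (Rk j) z (w t) + 1 = t * v := by
    intro t ht1 ht6 j haj
    have htv1 : 1 ≤ t * v := Nat.mul_pos ht1 hv.1
    induction j, haj using Nat.le_induction with
    | base =>
      intro _
      have h1 := (hw t ht6).2.1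
      refine ⟨by omega, ?_⟩
      have h2 := between_card (fun u _ hu => (hwin a ha).1 u hu) (t * v - 1)
        (by have := htv t ht6; omega)
      unfold btw
      have h3 : Rk a (w t) = Rk a z + (t * v - 1 + 1) := by omega
      rw [h3]
      omega
    | succ j hj ih =>
      intro hjc
      obtain ⟨h1, h2⟩ := ih (by omega)
      have hcM := (hmemK c hc).1
      have hjM : j < M - 1 := by omega
      have hjJ : j ∉ J v := fun h => hfree j h hj (by omega)
      have hzU : z ∉ Un j := by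
        intro h
        apply hjJ
        exact Finset.mem_union_left _ (Finset.mem_filter.2 ⟨Finset.mem_range.2 hjM, h⟩)
      have hwU : w t ∉ Un j := by
        intro h
        apply hjJ
        apply Finset.mem_union_right
        refine Finset.mem_image.2 ⟨(j, w t), Finset.mem_filter.2 ⟨?_, t, ?_, h2⟩, rfl⟩
        · rw [memEv]
          refine ⟨⟨hjM, h, (hw t ht6).1⟩, h1, ?_⟩
          rw [h2]; exact htv t ht6
        · exact Finset.mem_Icc.2 ⟨ht1, ht6⟩
      have h3 := btw_step (hB hz) (hw t ht6).1 (hcons j (by omega) z (hB hz) hzU)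
        (hcons j (by omega) (w t) (hw t ht6).1 hwU) h1
      exact ⟨h3.1, by rw [h3.2, h2]⟩
  have claim2 : ∀ k ∈ K v, a ≤ k → k ≤ c → ∀ t ≤ 6,
      Rk k (w t) = Rk k z + t * v ∧ Rk (k + 1) (w t) = Rk (k + 1) z + t * v := by
    intro k hk hak hkc t ht
    rcases Nat.eq_zero_or_pos t with h0 | hpos
    · subst h0
      rw [hw0]
      constructor <;> ring
    obtain ⟨h1, h2⟩ := claim1 t hpos ht k hak (by omega)
    obtain ⟨h3, h4⟩ := claim1 t hpos ht (k + 1) (by omega) (by omega)
    exact ⟨rank_of_cnt (fun u _ hu => (hwin k hk).1 u hu) h1 (htv t ht) h2,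
      rank_of_cnt (fun u _ hu => (hwin k hk).2 u hu) h3 (htv t ht) h4⟩
  have hfin : ∀ k ∈ K v, a ≤ k → k ≤ c → k + 1 < M ∧
      ∀ t < 6, Rk k (w t) = Rk (k + 1) (w (t + 1)) := by
    intro k hk hak hkc
    obtain ⟨h1, -, h3⟩ := hmemK k hk
    refine ⟨by omega, ?_⟩
    intro t ht
    rw [(claim2 k hk hak hkc t (by omega)).1, (claim2 k hk hak hkc (t + 1) (by omega)).2, h3]
    ring
  refine ⟨w, ![a, b, c], ?_, ?_, ?_, ?_, ?_⟩
  · intro p q hpq
    fin_cases p <;> fin_cases q
    · rfl
    · exact absurd (show a = b from hpq) (by omega)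
    · exact absurd (show a = c from hpq) (by omega)
    · exact absurd (show b = a from hpq) (by omega)
    · rfl
    · exact absurd (show b = c from hpq) (by omega)
    · exact absurd (show c = a from hpq) (by omega)
    · exact absurd (show c = b from hpq) (by omega)
    · rfl
  · intro p
    fin_cases p
    · exact (hfin a ha le_rfl (by omega)).1
    · exact (hfin b hb (by omega) (by omega)).1
    · exact (hfin c hc (by omega) le_rfl).1
  · intro t ht
    exact (hw t ht).1
  · intro t ht t' ht' he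
    have h1 := (hw t ht).2.1
    have h2 := (hw t' ht').2.1
    rw [he] at h1
    have h3 : t * v = t' * v := by omega
    exact Nat.eq_of_mul_eq_mul_right hv.1 h3
  · intro p
    fin_cases p
    · exact (hfin a ha le_rfl (by omega)).2
    · exact (hfin b hb (by omega) (by omega)).2
    · exact (hfin c hc (by omega) le_rfl).2

end

end Pool.Agent.Vpd
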