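import Pool.Agent.Lib.Vpd.Algebra
import Pool.Agent.Lib.Vpd.Select
import Pool.Agent.Lib.Vpd.GoodRank
import Pool.Agent.Lib.Vpd.Geo
import Pool.Agent.Lib.Vpd.Lip
import Pool.Agent.Lib.Vps.Upper

/-!
# The main theorem for sets of complex numbers (MP_733c86_co)
-/

set_option autoImplicit false

open Finset Pool.Agent.Vps
open scoped ComplexConjugate

namespace Pool.Agent.Vpd

theorem R_lt {X : Finset ℂ} {x y x' y' : ℂ} (h : dist x' y' < dist x y)
    (hm : dist x y ∈ Dset X) : R X x' y' < R X x y := by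
  unfold R
  refine Finset.card_lt_card ((Finset.ssubset_iff_of_subset ?_).2 ⟨dist x y, ?_, ?_⟩)
  · intro d hd
    simp only [Finset.mem_filter] at hd ⊢
    exact ⟨hd.1, hd.2.trans h.le⟩
  · simp [hm]
  · simp [h]

theorem R_le {X : Finset ℂ} (x y : ℂ) : R X x y ≤ (Dset X).card := Finset.card_filter_le _ _

theorem ne_of_near {x z : ℂ} (hx : dist x 1 ≤ 1 / 20) (hz : dist z Complex.I ≤ 1 / 50) :
    x ≠ z := by
  rintro rfl
  have h1 := dist_triangle (1 : ℂ) x Complex.I
  rw [dist_comm 1 x] at h1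
  have h2 : (1 : ℝ) ≤ dist (1 : ℂ) Complex.I := by
    rw [Complex.dist_eq]
    have := Complex.abs_re_le_norm (1 - Complex.I)
    simpa using this
  linarith

/-- The numerical conditions. -/
theorem numerics {n δ E κ : ℝ} (hδ : 0 < δ) (hδ1 : δ ≤ 1) (hκ1 : 12 ≤ κ) (hE : 1 ≤ E)
    (h : 10 ^ 21 * κ * E ≤ δ * n) :
    10 ^ 22 ≤ n ∧ 10 ^ 21 * E ≤ n ∧ 6 * κ * (2 * 10 ^ 12 * E) ≤ 1 / 10 ^ 5 * n := by
  have h3 : 0 < 10 ^ 21 * κ * E := by positivity
  have hn : 10 ^ 21 * κ * E ≤ n := by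
    by_contra hc
    push Not at hc
    have hn0 : 0 < n := by
      by_contra h2
      push Not at h2
      have : δ * n ≤ 0 := mul_nonpos_of_nonneg_of_nonpos hδ.le h2
      linarith
    nlinarith
  have h4 : 12 * E ≤ κ * E := mul_le_mul_of_nonneg_right hκ1 (by linarith)
  refine ⟨by linarith, by linarith, by linarith⟩

/-- The counting condition. -/
theorem count_cond {n δ E κ M B0 E1 E2 : ℝ} (hδ : 0 < δ) (hδ1 : δ ≤ 1) (hκ1 : 12 ≤ κ)
    (hκδ : 12 ≤ κ * δ) (hE : 1 ≤ E) (h : 10 ^ 21 * κ * E ≤ δ * n)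
    (hM : (δ * n - 2 * (5 * 10 ^ 12 * E)) / 2 ≤ M) (hB0 : n / 2000 ≤ B0)
    (hE1 : E1 ≤ n * E + 2 * n * (5 * 10 ^ 12 * E)) (hE2 : E2 ≤ 2 * n * (5 * 10 ^ 12 * E)) :
    (4 * (6 * κ + 1) * E1 + (3 * κ + 18 * (6 * κ + 1)) * E2) / B0 + 2 * κ + n / κ < M - 1 := by
  obtain ⟨hn22, hnE, -⟩ := numerics hδ hδ1 hκ1 hE h
  have hn0 : 0 < n := by linarith
  have hκ0 : 0 < κ := by linarith
  have hκE : 12 * E ≤ κ * E := mul_le_mul_of_nonneg_right hκ1 (by linarith)
  have hκE' : κ ≤ κ * E := by nlinarith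
  have hB0' : 0 < B0 := lt_of_lt_of_le (by positivity) hB0
  -- last term
  have t1 : n / κ ≤ δ * n / 12 := by
    rw [div_le_div_iff₀ hκ0 (by norm_num)]
    have h2 : δ * n * κ = n * (κ * δ) := by ring
    rw [h2]
    exact mul_le_mul_of_nonneg_left hκδ hn0.le
  -- first term
  have t2 : (4 * (6 * κ + 1) * E1 + (3 * κ + 18 * (6 * κ + 1)) * E2) / B0 ≤
      10 ^ 20 * (κ * E) := by
    rw [div_le_iff₀ hB0']
    have a1 : E1 ≤ 2 * 10 ^ 13 * (n * E) := by
      have : 0 ≤ n * E := by positivity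
      linarith
    have a2 : E2 ≤ 10 ^ 13 * (n * E) := by linarith
    have b1 : 4 * (6 * κ + 1) * E1 ≤ 28 * κ * (2 * 10 ^ 13 * (n * E)) := by
      have c1 : 4 * (6 * κ + 1) * E1 ≤ 4 * (6 * κ + 1) * (2 * 10 ^ 13 * (n * E)) :=
        mul_le_mul_of_nonneg_left a1 (by positivity)
      exact c1.trans (mul_le_mul_of_nonneg_right (by linarith) (by positivity))
    have b2 : (3 * κ + 18 * (6 * κ + 1)) * E2 ≤ 129 * κ * (10 ^ 13 * (n * E)) := by
      have c1 : (3 * κ + 18 * (6 * κ + 1)) * E2 ≤ (3 * κ + 18 * (6 * κ + 1)) * (10 ^ 13 * (n * E)) :=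
        mul_le_mul_of_nonneg_left a2 (by positivity)
      exact c1.trans (mul_le_mul_of_nonneg_right (by linarith) (by positivity))
    have b3 : 10 ^ 20 * (κ * E) * (n / 2000) ≤ 10 ^ 20 * (κ * E) * B0 :=
      mul_le_mul_of_nonneg_left hB0 (by positivity)
    have b4 : 0 ≤ κ * (n * E) := by positivity
    have b5 : 10 ^ 20 * (κ * E) * (n / 2000) = 5 * 10 ^ 16 * (κ * (n * E)) := by ring
    have b6 : 28 * κ * (2 * 10 ^ 13 * (n * E)) = 56 * 10 ^ 13 * (κ * (n * E)) := by ring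
    have b7 : 129 * κ * (10 ^ 13 * (n * E)) = 129 * 10 ^ 13 * (κ * (n * E)) := by ring
    linarith
  have t3 : 10 ^ 21 * (κ * E) ≤ δ * n := by linarith
  linarith

/-- The core: a curve of steps `p`, with bounds `P1`, `P2` for the sums of coincidences and of
inversions along it. -/
theorem rows_contra {X : Finset ℂ} {e T : ℝ} (hA : Ann X e T) {g : ℝ} (hg0 : 0 < g)
    (hg8 : g ≤ 1 / 10 ^ 8) (hTg : T ≤ g / 10 ^ 11) (hng' : 2 * 10 ^ 12 * (e + 1) ≤ X.card * g)
    (hcol : NoCol X) (hcirc : NoCirc X) {M : ℕ} {p : ℕ → ℂ} (hpX : ∀ k < M, p k ∈ X)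
    (hp : ∀ j k, j < k → k < M → Step (p j) (p k)) {κ : ℕ} (hκ : 0 < κ)
    (hW : ((6 * κ : ℕ) : ℝ) * g ≤ 1 / 10 ^ 5) {P1 P2 : ℝ}
    (hP1 : ∑ k ∈ range M, ((coin X (p k)).card : ℝ) ≤ P1)
    (hP2 : ∑ k ∈ range (M - 1), ((Unst X (p k) (p (k + 1))).card : ℝ) ≤ P2)
    (hcount : (4 * (6 * κ + 1) * (M * e + P1) + (3 * κ + 18 * (6 * κ + 1)) * P2) /
      ((X.card : ℝ) / 2000) + 2 * κ + (X.card : ℝ) / κ < M - 1) : False := by
  classical
  have h : Sys X e := hA.toSys
  have he0 := h.nonneg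
  have hn8 : X.card * g ≤ X.card * (1 / 10 ^ 8) := mul_le_mul_of_nonneg_left hg8 (by positivity)
  have hnpos : (0 : ℝ) < X.card := by
    exact_mod_cast Finset.card_pos.2 hA.nonempty
  set n : ℝ := (X.card : ℝ) with hn
  have hcardE : (X.card : ℝ) = n := rfl
  have hM2 : 2 ≤ M := by
    by_contra hc
    push Not at hc
    have h1 : (M : ℝ) ≤ 1 := by exact_mod_cast (by omega : M ≤ 1)
    have e1 : 0 ≤ P1 := le_trans (Finset.sum_nonneg fun _ _ => by positivity) hP1
    have e2 : 0 ≤ P2 := le_trans (Finset.sum_nonneg fun _ _ => by positivity) hP2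
    have h2 : (0 : ℝ) ≤ (4 * (6 * κ + 1) * (M * e + P1) + (3 * κ + 18 * (6 * κ + 1)) * P2) /
      (n / 2000) := by positivity
    have h3 : (0 : ℝ) ≤ n / κ := by positivity
    have h4 : (0 : ℝ) ≤ κ := by positivity
    linarith
  have hp1 : ∀ k < M, dist (p k) 1 ≤ 1 / 20 := by
    intro k hk
    rcases Nat.eq_zero_or_pos k with h0 | hpos
    · subst h0
      exact (hp 0 1 (by omega) (by omega)).near.trans (by norm_num)
    · exact (hp 0 k hpos hk).near'.trans (by norm_num)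
  have hpinj : ∀ i < M, ∀ j < M, p i = p j → i = j := by
    intro i hi j hj hij
    rcases lt_trichotomy i j with hlt | heq | hgt
    · have := (hp i j hlt hj).up
      rw [hij] at this
      exact absurd this (lt_irrefl _)
    · exact heq
    · have := (hp j i hgt hi).up
      rw [hij] at this
      exact absurd this (lt_irrefl _)
  set B : Finset ℂ := X.filter fun z => dist z Complex.I ≤ 1 / 50 with hB
  set B0 : Finset ℂ := X.filter fun z => dist z Complex.I ≤ 1 / 100 with hB0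
  have hBB : B0 ⊆ B := by
    intro z hz
    rw [hB0, Finset.mem_filter] at hz
    rw [hB, Finset.mem_filter]
    exact ⟨hz.1, hz.2.trans (by norm_num)⟩
  have hB0c : n / 2000 ≤ (B0.card : ℝ) := by
    obtain ⟨x, hx, hxu⟩ := density hA hg0 hg8 hTg hng' (u := Complex.I) (by simp)
    have h2 := avg hA (σ := 9 / 1000) (by
      have : g / 10 ^ 11 ≤ g := div_le_self hg0.le (by norm_num)
      linarith) (by norm_num) (by norm_num) hx
    have hsub : ball X x (9 / 1000) ⊆ B0 := by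
      intro y hy
      rw [mem_ball] at hy
      rw [hB0, Finset.mem_filter]
      refine ⟨hy.1, ?_⟩
      have h3 := dist_triangle y x Complex.I
      have h4 : (9 : ℝ) / 1000 + 3 * (1 / 10 ^ 8) ≤ 1 / 100 := by norm_num
      linarith [hy.2]
    have h5 : ((ball X x (9 / 1000)).card : ℝ) ≤ (B0.card : ℝ) := by
      exact_mod_cast Finset.card_le_card hsub
    rw [← hn] at h2
    linarith
  have hB0ne : B0.Nonempty := by
    rw [← Finset.card_pos]
    have : (0 : ℝ) < B0.card := lt_of_lt_of_le (by positivity) hB0c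
    exact_mod_cast this
  have hmemB : ∀ z ∈ B, z ∈ X ∧ dist z Complex.I ≤ 1 / 50 := fun z hz => Finset.mem_filter.1 hz
  have hmemB0 : ∀ z ∈ B0, z ∈ X ∧ dist z Complex.I ≤ 1 / 100 := fun z hz => Finset.mem_filter.1 hz
  have hDset : ∀ k < M, ∀ z ∈ B, dist (p k) z ∈ Dset X := by
    intro k hk z hz
    exact dist_mem_Dset (hpX k hk) (hmemB z hz).1 (ne_of_near (hp1 k hk) (hmemB z hz).2)
  obtain ⟨w, k, hkinj, hkM, hwB, hwinj, hweq⟩ := select (B := B) (B0 := B0) hBB hB0ne
    (M := M) (κ := κ) (n := X.card) hκ (Rk := fun k z => R X (p k) z)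
    (Bad := fun k => BadR X (p k)) (Un := fun k => Unst X (p k) (p (k + 1)))
    (fun k hk z hz => R_lt (dist_lt_of_step (hp k (k + 1) (Nat.lt_succ_self k) hk)
      ((hmemB z (hBB hz)).2)) (hDset k (by omega) z (hBB hz)))
    (fun z hz => (R_le _ _).trans (by
      have h2 := h.defect
      have h3 : ((Dset X).card : ℝ) ≤ X.card := by
        rw [hcardE] at h2 ⊢
        nlinarith
      exact_mod_cast h3))
    (fun k hk z hz u hu hb => by
      obtain ⟨y, hy, hy1, hy2, hy3⟩ := good_rank hA hg0 hg8 hTg hng' (W := 6 * κ) hW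
        (hpX k hk) (hp1 k hk) (hmemB0 z hz).1 (hmemB0 z hz).2 hu hb
      exact ⟨y, Finset.mem_filter.2 ⟨hy, hy1⟩, hy2,
        fun y' hy' he' => hy3 y' (hmemB y' hy').1 (hmemB y' hy').2 he'⟩)
    (fun k hk a ha hau b hb hba => by
      have hninv : ¬ Inv (p k) (p (k + 1)) a b := by
        intro hinv
        apply hau
        rw [Unst, Finset.mem_filter]
        exact ⟨(hmemB a ha).1, (hmemB a ha).2, b, (hmemB b hb).1, (hmemB b hb).2, hba, hinv⟩
      unfold Inv at hninv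
      rw [← not_or, not_not] at hninv
      rcases hninv with ⟨h2, h3⟩ | ⟨h2, h3⟩
      · exact Or.inl ⟨R_lt h2 (hDset k (by omega) b hb), R_lt h3 (hDset (k + 1) hk b hb)⟩
      · exact Or.inr ⟨R_lt h2 (hDset k (by omega) a ha), R_lt h3 (hDset (k + 1) hk a ha)⟩)
    (fun k hk r => by
      by_cases hemp : (B.filter fun z => R X (p k) z = r).Nonempty
      · obtain ⟨z0, hz0⟩ := hemp
        rw [Finset.mem_filter] at hz0
        refine le_trans (Finset.card_le_card ?_) (h.valid (p k) (hpX k hk) (dist (p k) z0))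
        intro z hz
        rw [Finset.mem_filter] at hz ⊢
        refine ⟨(hmemB z hz.1).1, ?_, ?_⟩
        · exact (ne_of_near (hp1 k hk) ((hmemB z hz.1).2)).symm
        · exact dist_eq_of_R_eq (hDset k hk z hz.1) (hDset k hk z0 hz0.1)
            (hz.2.trans hz0.2.symm)
      · rw [Finset.not_nonempty_iff_eq_empty] at hemp
        rw [hemp]; simp)
    (E1 := M * e + P1) (E2 := P2)
    (by
      have a1 : ∑ k ∈ range M, ((BadR X (p k)).card : ℝ) ≤
          ∑ k ∈ range M, (e + ((coin X (p k)).card : ℝ)) :=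
        Finset.sum_le_sum fun k hk => card_BadR h (hpX k (Finset.mem_range.1 hk))
      refine a1.trans ?_
      rw [Finset.sum_add_distrib, Finset.sum_const, Finset.card_range, nsmul_eq_mul]
      linarith)
    hP2
    (by
      rw [hcardE]
      refine lt_of_le_of_lt ?_ hcount
      have e1 : 0 ≤ P1 := le_trans (Finset.sum_nonneg fun _ _ => by positivity) hP1
      have e2 : 0 ≤ P2 := le_trans (Finset.sum_nonneg fun _ _ => by positivity) hP2
      have h2 : (4 * (6 * κ + 1) * (M * e + P1) + (3 * κ + 18 * (6 * κ + 1)) * P2) / (B0.card : ℝ) ≤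
          (4 * (6 * κ + 1) * (M * e + P1) + (3 * κ + 18 * (6 * κ + 1)) * P2) / (n / 2000) :=
        div_le_div_of_nonneg_left (by positivity) (by positivity) hB0c
      linarith)
  have hkinj' : ∀ a b : Fin 3, a ≠ b → p (k a + 1) ≠ p (k b + 1) := by
    intro a b hab he'
    have := hpinj _ (hkM a) _ (hkM b) he'
    exact hab (hkinj (by omega))
  have hwX : ∀ i ≤ 6, w i ∈ X := fun i hi => (hmemB _ (hwB _ hi)).1
  have hwne : ∀ i ≤ 6, ∀ j ≤ 6, i ≠ j → w i ≠ w j := by
    intro i hi j hj hij he'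
    exact hij (hwinj _ hi _ hj he')
  refine chain_contra (p := fun a => p (k a)) (p' := fun a => p (k a + 1))
    (z := w) ?_ ?_ ?_ ?_ ?_ ?_
  · exact hcol _ (hpX _ (hkM 0)) _ (hpX _ (hkM 1)) _ (hpX _ (hkM 2)) (hkinj' 0 1 (by decide))
      (hkinj' 0 2 (by decide)) (hkinj' 1 2 (by decide))
  · intro i hi j hj l hl hij hjl
    exact hcol _ (hwX i hi) _ (hwX j hj) _ (hwX l hl) (hwne i hi j hj (by omega))
      (hwne i hi l hl (by omega)) (hwne j hj l hl (by omega))
  · exact hwne 0 (by omega) 3 (by omega) (by omega)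
  · exact hwne 0 (by omega) 4 (by omega) (by omega)
  · exact hcirc _ (hwX 0 (by omega)) _ (hwX 1 (by omega)) _ (hwX 2 (by omega)) _
      (hwX 3 (by omega)) (hwne 0 (by omega) 1 (by omega) (by omega))
      (hwne 0 (by omega) 2 (by omega) (by omega)) (hwne 0 (by omega) 3 (by omega) (by omega))
      (hwne 1 (by omega) 2 (by omega) (by omega)) (hwne 1 (by omega) 3 (by omega) (by omega))
      (hwne 2 (by omega) 3 (by omega) (by omega))
  · intro a t ht
    have h2 := hkM a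
    exact dist_eq_of_R_eq (hDset _ (by omega) _ (hwB _ (by omega)))
      (hDset _ h2 _ (hwB _ (by omega))) (hweq a t ht)


theorem mainD {X S : Finset ℂ} {e δ : ℝ} {κ : ℕ} (h : Sys X e) (h0 : ∑ x ∈ X, x = 0)
    (h1 : ∑ x ∈ X, ‖x‖ ^ 2 = X.card) (hcol : NoCol X) (hcirc : NoCirc X) (hSX : S ⊆ X)
    (hcase : (∀ y ∈ S, y ∉ convexHull ℝ ((S : Set ℂ) \ {y})) ∨
      ∃ w : ℂ, ‖w‖ = 1 ∧ ∀ p ∈ S, ∀ q ∈ S, 19 / 20 * dist p q ≤ |((q - p) * conj w).re|)
    (hS1 : ∀ y ∈ S, dist y 1 ≤ 1 / 100)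
    (hδ : 0 < δ) (hS : δ * X.card ≤ S.card) (hκ1 : 12 ≤ κ) (hκδ : 12 ≤ κ * δ)
    (he : 10 ^ 21 * (κ : ℝ) * (e + 1) ≤ δ * X.card) : False := by
  classical
  have he0 := h.nonneg
  have hκR : (12 : ℝ) ≤ κ := by exact_mod_cast hκ1
  have hSX' : (S.card : ℝ) ≤ X.card := by exact_mod_cast Finset.card_le_card hSX
  have hnpos : (0 : ℝ) < X.card := by
    by_contra hc
    push Not at hc
    have : δ * (X.card : ℝ) ≤ 0 := mul_nonpos_of_nonneg_of_nonpos hδ.le hc
    have h2 : 0 < 10 ^ 21 * (κ : ℝ) * (e + 1) := by positivity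
    linarith
  have hδ1 : δ ≤ 1 := by
    by_contra hc
    push Not at hc
    nlinarith
  obtain ⟨hn22, hnE, hWg⟩ := numerics hδ hδ1 hκR (by linarith : (1 : ℝ) ≤ e + 1) he
  set n : ℝ := (X.card : ℝ) with hn
  have hne : X.Nonempty := by
    rw [← Finset.card_pos]
    exact Nat.cast_pos.1 hnpos
  have hA := annulus h hne h0 h1 (by nlinarith)
  set T : ℝ := 5 * e / X.card with hTdef
  have hT0 : 0 ≤ T := by positivity
  set g : ℝ := 2 * 10 ^ 12 * (e + 1) / n with hg
  have hg0 : 0 < g := by positivity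
  have hng : n * g = 2 * 10 ^ 12 * (e + 1) := by rw [hg, mul_div_cancel₀ _ hnpos.ne']
  have hg8 : g ≤ 1 / 10 ^ 8 := by
    rw [hg, div_le_iff₀ hnpos]
    nlinarith
  have hTg : T ≤ g / 10 ^ 11 := by
    rw [hTdef, hg, div_div, mul_comm n, ← div_div]
    apply div_le_div_of_nonneg_right _ hnpos.le
    rw [le_div_iff₀ (by norm_num)]
    nlinarith
  have hng' : 2 * 10 ^ 12 * (e + 1) ≤ X.card * g := hng.ge
  set K : ℝ := 5 * 10 ^ 12 * (e + 1) with hK
  have hKub : ∀ y ∈ X, ((ball X y g).card : ℝ) ≤ K := by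
    intro y hy
    have h1 := upper hA hg0 hg8 hTg hng' (ρ := g) le_rfl (hg8.trans (by norm_num)) hy
    have h2 : 2 * n * g + e ≤ K := by
      have : 2 * n * g = 4 * 10 ^ 12 * (e + 1) := by linarith
      rw [this, hK]
      nlinarith
    exact h1.trans h2
  have hT4 : T ≤ 1 / 10 ^ 4 := by
    refine hTg.trans ?_
    rw [div_le_iff₀ (by norm_num)]
    linarith
  have h30 : 30 * T ≤ g := by
    have : g / 10 ^ 11 ≤ g / 30 := div_le_div_of_nonneg_left hg0.le (by norm_num) (by norm_num)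
    linarith
  obtain ⟨M, hM, p, hpS, hp⟩ : ∃ M : ℕ, ((S.card : ℝ) - 2 * K) / 2 ≤ M ∧ ∃ p : ℕ → ℂ,
      (∀ k < M, p k ∈ S) ∧ ∀ j k, j < k → k < M → Step (p j) (p k) := by
    rcases hcase with hconv | ⟨w, hw, hlip⟩
    · exact curve hA hT4 h30 hKub hSX hcol hconv hS1
    · have hKS : K < S.card := by
        have h3 : 10 ^ 21 * (e + 1) ≤ 10 ^ 21 * (κ : ℝ) * (e + 1) := by nlinarith
        rw [hK]
        linarith
      obtain ⟨p, hp1, hp2⟩ := lip_curve hA h30 hKub hSX hw hlip hS1 hKS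
      refine ⟨S.card, ?_, p, hp1, hp2⟩
      have hK0 : 0 ≤ K := by positivity
      have hS0 : (0 : ℝ) ≤ S.card := by positivity
      linarith
  have hpX : ∀ k < M, p k ∈ X := fun k hk => hSX (hpS k hk)
  have hcardE : (X.card : ℝ) = n := rfl
  have hpinj : ∀ i < M, ∀ j < M, p i = p j → i = j := by
    intro i hi j hj hij
    rcases lt_trichotomy i j with hlt | heq | hgt
    · have := (hp i j hlt hj).up
      rw [hij] at this
      exact absurd this (lt_irrefl _)
    · exact heq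
    · have := (hp j i hgt hi).up
      rw [hij] at this
      exact absurd this (lt_irrefl _)
  have hMn : (M : ℝ) ≤ n := by
    have : M ≤ X.card := by
      have h2 : (range M).card ≤ X.card := Finset.card_le_card_of_injOn p
        (fun k hk => hpX k (Finset.mem_range.1 (by simpa using hk)))
        (fun i hi j hj hij => hpinj i (by simpa using hi) j (by simpa using hj) hij)
      rwa [Finset.card_range] at h2
    have h5 : (M : ℝ) ≤ (X.card : ℝ) := by exact_mod_cast this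
    exact h5
  have a2 : ∑ k ∈ range M, ((coin X (p k)).card : ℝ) ≤ 2 * n * K := by
    have h2 : ∑ k ∈ range M, ((coin X (p k)).card : ℝ) =
        ∑ x ∈ (range M).image p, ((coin X x).card : ℝ) := by
      rw [Finset.sum_image (fun a ha b hb hab => hpinj a (by simpa using ha) b
        (by simpa using hb) hab)]
    rw [h2]
    have a3 := sum_coin hA hT4 hcol (g := g) (K := K) (by linarith) hKub
    rw [hcardE] at a3
    refine le_trans (Finset.sum_le_sum_of_subset_of_nonneg ?_ (fun _ _ _ => by positivity)) a3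
    intro x hx
    rw [Finset.mem_image] at hx
    obtain ⟨i, hi, rfl⟩ := hx
    exact hpX i (Finset.mem_range.1 hi)
  have a5 := sum_unst hA (g := g) (K := K) (by linarith) hKub hp
  rw [hcardE] at a5
  refine rows_contra hA hg0 hg8 hTg hng' hcol hcirc hpX hp (κ := κ) (by omega) ?_ a2 a5 ?_
  · push_cast
    rw [hg, mul_div_assoc', div_le_iff₀ hnpos]
    exact hWg
  · rw [hcardE]
    have a4 : (M : ℝ) * e ≤ n * (e + 1) := by nlinarith
    refine count_cond (δ := δ) (E := e + 1) (M := M) hδ hδ1 hκR hκδ (by linarith) he ?_ le_rfl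
      ?_ le_rfl
    · refine le_trans ?_ hM
      rw [← hK]
      linarith
    · rw [← hK]
      linarith

end Pool.Agent.Vpd
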