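import Pool.Agent.Lib.Vps.Defs

/-!
# Steps (MP_733c86_co): the definition
-/

set_option autoImplicit false

namespace Pool.Agent.Vpd

/-- `x` and `x'` are near `1` and `x'` is above `x`, at an angle less than `45` degrees with the
vertical direction. -/
structure Step (x x' : ℂ) : Prop where
  near : dist x 1 ≤ 1 / 100
  near' : dist x' 1 ≤ 1 / 100
  up : x.im < x'.im
  slope : |x'.re - x.re| ≤ 93 / 100 * (x'.im - x.im)

end Pool.Agent.Vpd
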